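import Pool.Agent.NL.AllB
import Pool.Agent.Helper10_NLO.GPT
import Pool.Agent.Helper56_NLO.CPY
import Pool.Agent.Helper33_NLO.FAM
import Pool.Agent.Helper95_NLO.BAT
import Pool.Agent.Helper24_NLO.COU
import Pool.Agent.Helper59_NLO.MOV
import Pool.Agent.Helper40_NLO.AKB
import Pool.Agent.Helper47_NLO.AUP
import Pool.Agent.Helper86_NLO.ALO
import Pool.Agent.Helper81_NLO.ASL
import Pool.Agent.Helper81_NLO.ASU
import Pool.Agent.Helper87_NLO.ARE
import Pool.Agent.Helper53_NL.STR
import Pool.Agent.Helper53_NL.ALS
import Pool.Agent.Helper53_NL.AST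
import Pool.Agent.Helper68_NLO.ACF
import Pool.Agent.Helper39_NLO.AMA

/-!
# NL: the case ALPHA without hypotheses
-/

set_option autoImplicit false

namespace Pool.Agent.NL.All

theorem gpt : GptStmt := H10.gpt stq rcn
theorem cpy : CpyStmt := H56.cpy gpt dnb
theorem fam : FamStmt := H33.fam cpy nrv
theorem bat : BatStmt := H95.bat gpt ret
theorem cou : CouStmt := H24.cou
theorem mov : MovStmt := H59.mov bat cou fam nrv rcn
theorem akb : AkbStmt := H40.akb gnd low
theorem aup : AupStmt := H47.aup akb
theorem alo : AloStmt := H86.alo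
theorem asl : AslStmt := H81.asl
theorem asu : AsuStmt := H81.asu akb
theorem are : AreStmt := H87.are akb
theorem ast : AstStmt := H53.ast bsr akb aup alo asl asu are
theorem acf : AcfStmt := H68.acf rcn
theorem ama : AmaStmt := H39.ama mov ast acf rcn

end Pool.Agent.NL.All
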