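import Pool.Agent.NL.StmtsA
import Pool.Agent.NE.Stmts

/-!
# NL: the cases BETA and ALPHA
-/

set_option autoImplicit false

open MeasureTheory Filter Topology

namespace Pool.Agent.NL

/-- the cases BETA and ALPHA -/
theorem nlc (dic : DicStmt) (bma : BmaStmt) (ama : AmaStmt) (ena : NE.EnaStmt)
    (X : Type) [NormedAddCommGroup X] [NormedSpace ℝ X] [CompleteSpace X]
    [TopologicalSpace.SeparableSpace X] (f : ℝ → X) (F : ℕ → StrongDual ℝ X) (G : ℝ → Z)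
    (Ψ : X →ₗᵢ[ℝ] Z) (hC : Crv f F G Ψ) (hnd : ¬ ∀ᵐ t : ℝ, DifferentiableAt ℝ f t)
    (hT : TT G Ψ) : NE.Concl X := by
  rcases dic X f F G Ψ hC hnd with ⟨δ, hδ, A, hA, h⟩ | ⟨a, ha, x, hx, hr⟩
  · have hP : APt G Ψ δ A :=
      { pos := hδ
        gen := fun x hx => (h x hx).1
        den := fun x hx => (h x hx).2.1
        far := fun x hx => (h x hx).2.2.1
        rch := fun x hx => (h x hx).2.2.2 }
    exact ena X Z Ψ ℝ G (InvB G Ψ A) 1 2 1 δ one_pos le_rfl hδ (bma X f F G Ψ hC δ A hP hA)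
  · obtain ⟨ha1, hM⟩ := ama X f F G Ψ hC hT a ha x hx hr
    exact ena X Z Ψ (ℝ →₀ ℝ) (fun q => V G q) (InvA G Ψ a) (a / 16) 2 1 a (by linarith)
      (by linarith) ha hM

end Pool.Agent.NL
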