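import Pool.Agent.NL.Defs

/-!
# NL: statements of the measure part

`X` is a real Banach space, `Z = ℓ_∞`. See the docstrings for the complete proofs.
-/

set_option autoImplicit false

open MeasureTheory Filter Topology Set

noncomputable section

namespace Pool.Agent.NL

/-! ### the density filter -/

/-- DNB: the filter `dens w` is proper and contains the sets of full measure. Proof: if `∅ ∈ dens w`
then `(n + 1) * volume (nb n w) = 2` tends to `0`. If `P` holds a.e. then the complement has the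
measure `0`, the sequence is constant `0`. -/
def DnbStmt : Prop := (∀ w, (dens w).NeBot) ∧
  ∀ P : ℝ → Prop, (∀ᵐ x, P x) → ∀ w, ∀ᶠ x in dens w, P x

/-- MRK: approximate continuity and the averages of `|h - c|`. Proof: `→`: for `ε > 0` the set
`{x | ε ≤ |h x - c|}` is measurable and `ε * volume (set ∩ nb n w) ≤ ∫ x in nb n w, |h x - c|`
(`mul_meas_ge_le_integral_of_nonneg` or `setIntegral_mono`), so `{x | |h x - c| < ε} ∈ dens w`.
`←`: `∫ x in nb n w, |h x - c| ≤ ε * (2 / (n + 1)) + (C + |c|) * volume ({ε ≤ |h - c|} ∩ nb n w)`. -/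
def MrkStmt : Prop := ∀ (h : ℝ → ℝ) (C : ℝ), Measurable h → (∀ x, |h x| ≤ C) → ∀ w c : ℝ,
  (Tendsto (fun n : ℕ => ((n : ℝ) + 1) * ∫ x in nb n w, |h x - c|) atTop (𝓝 0) ↔
    Tendsto h (dens w) (𝓝 c))

/-- LEB: bounded measurable functions are approximately continuous a.e.; a measurable set has
density one at almost all its points. Proof: `MRK` and
`IsUnifLocDoublingMeasure.ae_tendsto_average_norm_sub` (`h` is locally integrable; centres `w`, radii
`1 / (n + 1)`, `K = 1`; `Real.closedBall_eq_Icc`; the average is `((n + 1) / 2) * ∫`). Second part: the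
indicator function of `A`. -/
def LebStmt : Prop :=
  (∀ (h : ℝ → ℝ) (C : ℝ), Measurable h → (∀ x, |h x| ≤ C) → ∀ᵐ w, Tendsto h (dens w) (𝓝 (h w))) ∧
  ∀ A : Set ℝ, MeasurableSet A → ∀ᵐ x, x ∈ A → A ∈ dens x

/-- AVG: averages of approximately continuous functions. Proof: `MRK`,
`|((n+1)/2) * ∫ h - c| ≤ ((n+1)/2) * ∫ |h - c|`. -/
def AvgStmt : Prop := ∀ (h : ℝ → ℝ) (C : ℝ), Measurable h → (∀ x, |h x| ≤ C) → ∀ w c : ℝ,
  Tendsto h (dens w) (𝓝 c) →
    Tendsto (fun n : ℕ => ((n : ℝ) + 1) / 2 * ∫ x in nb n w, h x) atTop (𝓝 c)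

/-- SLI: approximate continuity in one coordinate. Proof: the set of the `w` with
`Tendsto (fun n => (n + 1) * ∫ u in Icc (-1/(n+1)) (1/(n+1)), |h (update w j (w j + u)) - h w|)` to `0`
is measurable (`measurableSet_tendsto_fun`; the integral depends measurably on `w`:
`StronglyMeasurable.integral_prod_right`), so by Fubini (`volume_preserving_piFinSuccAbove`,
`measure_ae_null_of_prod_null` / `Measure.ae_prod_iff_ae_ae` for measurable sets) it is enough that for
fixed other coordinates a.e. `w j` is good: `LEB` (its proof gives the averages; or `MRK`) for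
`x ↦ h (insertNth j x w')`. Then `MRK` again. (`t = 0`: there is no `j`.) -/
def SliStmt : Prop := ∀ (t : ℕ) (h : (Fin t → ℝ) → ℝ) (C : ℝ), Measurable h →
  (∀ w, |h w| ≤ C) → ∀ j : Fin t, ∀ᵐ w : Fin t → ℝ,
    Tendsto (fun x => h (Function.update w j x)) (dens (w j)) (𝓝 (h w))

/-- EXT: generic configurations have generic extensions. Proof: for each `l`, the hypothesis for
`N + l` and Fubini (`Measure.ae_ae_of_ae_prod`, the measure preserving equivalence
`(Fin (N + l) → ℝ) ≃ᵐ (Fin N → ℝ) × (Fin l → ℝ)`, e.g. `MeasurableEquiv.sumPiEquivProdPi` with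
`finSumFinEquiv`, or by induction with `piFinSuccAbove`):
`image (append v v') = image v ∪ image v'`. -/
def ExtStmt : Prop := ∀ (P : Finset ℝ → Prop) (W : Finset ℝ), GnP P W → ∀ N : ℕ,
  ∀ᵐ v : Fin N → ℝ, GnP P (W ∪ Finset.univ.image v)

/-! ### the setting -/

/-- SET: the weak derivative exists. Proof: `X` separable: dense sequence `x k`, `F k` norming `x k`
(`exists_dual_vector''`); then `‖x‖ = sup |F k x|` (`|F k x| ≥ ‖x k‖ - ‖x - x k‖`), so
`Ψ x = (F k x)_k` is isometric (`BoundedContinuousFunction.ofNormedAddCommGroupDiscrete`,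
`norm_eq_iSup_norm`). `G w k = max (-1) (min 1 (deriv (fun t => F k (f t)) w))`, measurable
(`measurable_deriv`), the derivative exists a.e. (`LipschitzWith.ae_differentiableAt_real`) with
absolute value `≤ 1` (`norm_deriv_le_of_lipschitz`); the integral:
`AbsolutelyContinuousOnInterval.integral_deriv_eq_sub`,
`LipschitzOnWith.absolutelyContinuousOnInterval`. The last clause says that `F k ∘ f` is
differentiable a.e. with the derivative `G w k`. -/
def SetStmt : Prop := ∀ (X : Type) [NormedAddCommGroup X] [NormedSpace ℝ X]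
  [TopologicalSpace.SeparableSpace X] (f : ℝ → X), LipschitzWith 1 f →
    ∃ (F : ℕ → StrongDual ℝ X) (G : ℝ → Z) (Ψ : X →ₗᵢ[ℝ] Z), Crv f F G Ψ ∧
      ∀ᵐ w, ∀ k, HasDerivAt (fun t => F k (f t)) (G w k) w

/-- MEA: measurability of norms. Proof: the norm is the supremum of the absolute values of the
coordinates (`BoundedContinuousFunction.norm_eq_iSup_norm`), countably many (`Measurable.iSup`, the
suprema are bounded). -/
def MeaStmt : Prop := ∀ (G : ℝ → Z), (∀ k, Measurable fun w => G w k) →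
  (∀ (z : Z) (c : ℝ), Measurable fun x => ‖z + c • G x‖) ∧
  ∀ (l : ℕ) (β : Fin l → ℝ) (z : Z), Measurable fun v : Fin l → ℝ => ‖∑ i, β i • G (v i) - z‖

/-- GOO: almost all tuples are good. Proof: almost all `v` are injective, and for a.e. `v` all the
`v i` are points of approximate continuity of the (countably many) coordinates (`LEB` and Fubini: the
coordinate `v ↦ v i` is quasi measure preserving / `Measure.ae_eval`...; or `SLI` for
`h v = G (v i) k`). For rational `β : Fin l → ℚ` and `y` in a dense sequence of `X`, and every `j`,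
`SLI` for `h v = min C ‖∑ i, β i • G (v i) - Ψ y‖` (bounded by `C = ∑ |β i| + ‖y‖`, so the minimum is
not needed; measurable by `MEA`). For a.e. `v` all these hold; if `b.support ⊆ image v`, `v`
injective, `s = v j`, then `V G b + b s • (G x - G s) = ∑ i, b (v i) • G (update v j x i)`, and
the left side depends on the coefficients and on `y` in a Lipschitz way uniformly in `x`
(`‖G‖ ≤ 1`): approximate. -/
def GooStmt : Prop := ∀ (X : Type) [NormedAddCommGroup X] [NormedSpace ℝ X]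
  [TopologicalSpace.SeparableSpace X] (f : ℝ → X) (F : ℕ → StrongDual ℝ X) (G : ℝ → Z)
  (Ψ : X →ₗᵢ[ℝ] Z), Crv f F G Ψ → Gn G Ψ ∅

/-- GND: consequences of the definition. Proof: `l = 0` (the measure on `Fin 0 → ℝ` is a Dirac
measure: `Measure.volume_pi..`, `ae` gives the unique point), `EXT` for `N = 0, 1` (`Fin 1 → ℝ` and
`ℝ`: `volume_preserving_funUnique`). -/
def GndStmt : Prop := ∀ (X : Type) [NormedAddCommGroup X] [NormedSpace ℝ X] (G : ℝ → Z)
  (Ψ : X →ₗᵢ[ℝ] Z) (W : Finset ℝ), Gn G Ψ W → Good G Ψ W ∧ ∀ᵐ x : ℝ, Gn G Ψ (insert x W)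

/-- REM: removal of points does not increase the distance from `X`. Proof: one point `s ∈ W`
(induction over the points of `W` without `p`; if `b s = 0` nothing to prove): let `y : X`,
`r n = 1 / (n + 1)`, `x_n = (f (s + r n) - f (s - r n)) / (2 r n)`. By `Crv.avg` the `k`-th coordinate
of `V G (b.erase s) - Ψ (y - b s • x_n)` is the average over `x ∈ nb n s` of the `k`-th coordinate of
`V G b + b s • (G x - G s) - Ψ y`, so its absolute value is at most the average of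
`‖V G b + b s • (G x - G s) - Ψ y‖`, which tends to `‖V G b - Ψ y‖` (`Good`, `AVG`, `MEA`). Hence
`rho Ψ (V G (b.erase s)) ≤ ‖V G b - Ψ y‖`. -/
def RemStmt : Prop := ∀ (X : Type) [NormedAddCommGroup X] [NormedSpace ℝ X] (f : ℝ → X)
  (F : ℕ → StrongDual ℝ X) (G : ℝ → Z) (Ψ : X →ₗᵢ[ℝ] Z), Crv f F G Ψ →
    ∀ W : Finset ℝ, Good G Ψ W → ∀ b : ℝ →₀ ℝ, b.support ⊆ W →
      ∀ (p : ℝ → Prop) [DecidablePred p], rho Ψ (V G (b.filter p)) ≤ rho Ψ (V G b)

/-- NRM: finitely many coordinates are almost norming on a finite dimensional subspace. Proof: the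
unit sphere of `E` is compact; for `z` in it there is `k` with `|z k| > 1 / (1 + η)`
(`norm_eq_iSup_norm`), this is an open condition; finite subcover; scaling (for `z = 0` any `k`: add
`0` to the finite set). -/
def NrmStmt : Prop := ∀ (E : Submodule ℝ Z) [FiniteDimensional ℝ E] (η : ℝ), 0 < η →
  ∃ Φ : Finset ℕ, ∀ z ∈ E, ∃ k ∈ Φ, ‖z‖ ≤ (1 + η) * |z k|

/-- STQ: the new points. Proof: `x ∉ W` and `Gn` hold for a.e. `x` (`GND`, `DNB`); the coordinates in
`Φ` by `Good`. The last condition: it is homogeneous; `(b, y)` runs through the finite dimensional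
space of the `b` with `b.support ⊆ W` and `y ∈ E`, both sides are Lipschitz in `(b, y)` for the norm
`l1 b + ‖y‖` uniformly in `x` (`‖G‖ ≤ 1`), so it is enough to consider a finite net of the sphere
`l1 b + ‖y‖ = 1` (with error `η / 2`), and there `Good` (finitely many `∀ᶠ`). -/
def StqStmt : Prop := ∀ (X : Type) [NormedAddCommGroup X] [NormedSpace ℝ X] (f : ℝ → X)
  (F : ℕ → StrongDual ℝ X) (G : ℝ → Z) (Ψ : X →ₗᵢ[ℝ] Z), Crv f F G Ψ →
    ∀ W : Finset ℝ, Gn G Ψ W → ∀ s ∈ W, ∀ (Φ : Finset ℕ) (E : Submodule ℝ X)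
      [FiniteDimensional ℝ E] (η : ℝ), 0 < η →
      ∀ᶠ x in dens s, x ∉ W ∧ Gn G Ψ (insert x W) ∧ (∀ k ∈ Φ, |G x k - G s k| ≤ η) ∧
        ∀ b : ℝ →₀ ℝ, b.support ⊆ W → ∀ y ∈ E,
          ‖V G b + b s • (G x - G s) - Ψ y‖ ≤ ‖V G b - Ψ y‖ + η * (l1 b + ‖y‖)

/-- POS: the weak derivative is far from `X` on a set of positive measure. Proof: otherwise
`rho Ψ (G x) = 0` for a.e. `x` (the set `{x | δ ≤ rho Ψ (G x)}` is measurable: infimum over a dense
sequence of `X` of the measurable functions `‖G x - Ψ y‖`, `MEA`), so `G x = Ψ (γ x)` for a.e. `x`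
(`Ψ X` is closed, `X` complete). `γ` is a.e. strongly measurable: for a dense sequence `y q` let
`γ_n x = y q` for the least `q` with `‖G x - Ψ (y q)‖ ≤ 1 / (n + 1)`; this is a countably valued
measurable function and `‖γ_n - γ‖ ≤ 1 / (n + 1)` a.e. By `Crv.avg` and injectivity of `Ψ`
(coordinates `F k`, `psi`): `f b - f a = ∫ x in a..b, γ x`, so `f` is differentiable a.e.
(`LocallyIntegrable.ae_hasDerivAt_integral` or as in `Helper81_BC/LEB`). -/
def PosStmt : Prop := ∀ (X : Type) [NormedAddCommGroup X] [NormedSpace ℝ X] [CompleteSpace X]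
  [TopologicalSpace.SeparableSpace X] (f : ℝ → X) (F : ℕ → StrongDual ℝ X) (G : ℝ → Z)
  (Ψ : X →ₗᵢ[ℝ] Z), Crv f F G Ψ → (¬ ∀ᵐ t : ℝ, DifferentiableAt ℝ f t) →
    ∃ δ : ℝ, 0 < δ ∧ ∃ A : Set ℝ, MeasurableSet A ∧ volume A ≠ 0 ∧ ∀ x ∈ A, δ ≤ rho Ψ (G x)

/-! ### the predicate `Rch` -/

/-- RCN: the negation of `Rch`. Proof: the first two parts are the constructors (`¬ ∃ᶠ` is `∀ᶠ ¬`,
with `S = {x | Rch (insert x W)}`); the third part: `Rch W' → Rch W` for `W' ⊆ W` by induction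
(`insert x W' ⊆ insert x W`). -/
def RcnStmt : Prop := ∀ (X : Type) [NormedAddCommGroup X] [NormedSpace ℝ X] (G : ℝ → Z)
  (Ψ : X →ₗᵢ[ℝ] Z) (a : ℝ) (W : Finset ℝ), ¬ Rch G Ψ a W →
    (∀ p : ℝ →₀ ℝ, p.support ⊆ W → Pb p → a ≤ rho Ψ (V G p)) ∧
    (∀ s ∈ W, ∀ᶠ x in dens s, ¬ Rch G Ψ a (insert x W)) ∧ ∀ W' ⊆ W, ¬ Rch G Ψ a W'

/-- LOW: the points of `C` are `ℓ₁` modulo `X` and the other points. Proof: let `b' = b.filter (· ∈ C)`
and `b⁺, b⁻` its positive and negative part (`b.filter (x ∈ C ∧ 0 < b x)`, ...). By `REM`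
`rho (V b) ≥ rho (V b⁺)` and `rho (V b) ≥ rho (V b⁻)`; `b⁺ = |b⁺|₁ • p` with `Pb p` (if `b⁺ ≠ 0`), so
`rho (V b⁺) = |b⁺|₁ * rho (V p) ≥ a |b⁺|₁` (`RCN`; `rho` is homogeneous and even). Add. -/
def LowStmt : Prop := ∀ (X : Type) [NormedAddCommGroup X] [NormedSpace ℝ X] (f : ℝ → X)
  (F : ℕ → StrongDual ℝ X) (G : ℝ → Z) (Ψ : X →ₗᵢ[ℝ] Z), Crv f F G Ψ →
    ∀ W : Finset ℝ, Good G Ψ W → ∀ C ⊆ W, ∀ a : ℝ, 0 ≤ a → ¬ Rch G Ψ a C →
      ∀ b : ℝ →₀ ℝ, b.support ⊆ W → a / 2 * ∑ x ∈ C, |b x| ≤ rho Ψ (V G b)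

/-- RET: families of points which return to `X`. Proof: `S ∈ dens s` contains a measurable set `S'` of
positive measure (the complement in `nb n s` of the measurable hull `toMeasurable` of `Sᶜ ∩ nb n s`,
`n` large). By `TT` for `S'` and `e` there is `m` such that the set of the `x : Fin m → ℝ` in `S'^m`
with some `p` with `rho (∑ p i • G (x i)) < e` is not null; a.e. `x` is injective, avoids `W`, and
`Gn (W ∪ image x)` (`EXT`), so there is such an `x`. Perturb `p` to be positive (`rho` is continuous,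
`(1 - θ) p + θ / m`), `m > 0` since `∑ p = 1`. -/
def RetStmt : Prop := ∀ (X : Type) [NormedAddCommGroup X] [NormedSpace ℝ X] (G : ℝ → Z)
  (Ψ : X →ₗᵢ[ℝ] Z), TT G Ψ → ∀ W : Finset ℝ, Gn G Ψ W → ∀ (s : ℝ), ∀ S ∈ dens s, ∀ e : ℝ, 0 < e →
    ∃ p : ℝ →₀ ℝ, Pb p ∧ (p.support : Set ℝ) ⊆ S ∧ Disjoint p.support W ∧
      Gn G Ψ (W ∪ p.support) ∧ ∃ y : X, ‖V G p - Ψ y‖ < e

/-- DIC: the dichotomy. Proof: `POS` gives `A₀` and `δ`. If there are no `a > 0` and `x` as in the
second alternative, let `A` be the set of the `x ∈ A₀` with `Gn {x}` and `A₀ ∈ dens x`; a.e. `x` has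
`Gn {x}` (`GOO`, `GND` for `W = ∅`) and a.e. `x ∈ A₀` has `A₀ ∈ dens x` (`LEB`), so `A` is not empty,
and `A ∈ dens x` for `x ∈ A` (`DNB`). -/
def DicStmt : Prop := ∀ (X : Type) [NormedAddCommGroup X] [NormedSpace ℝ X] [CompleteSpace X]
  [TopologicalSpace.SeparableSpace X] (f : ℝ → X) (F : ℕ → StrongDual ℝ X) (G : ℝ → Z)
  (Ψ : X →ₗᵢ[ℝ] Z), Crv f F G Ψ → (¬ ∀ᵐ t : ℝ, DifferentiableAt ℝ f t) →
    (∃ δ : ℝ, 0 < δ ∧ ∃ A : Set ℝ, A.Nonempty ∧ ∀ x ∈ A, Gn G Ψ {x} ∧ A ∈ dens x ∧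
      δ ≤ rho Ψ (G x) ∧ ∀ a : ℝ, 0 < a → Rch G Ψ a {x}) ∨
    ∃ a : ℝ, 0 < a ∧ ∃ x : ℝ, Gn G Ψ {x} ∧ ¬ Rch G Ψ a {x}

end Pool.Agent.NL
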