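import Pool.Agent.NL.AllM
import Pool.Agent.Helper62_NLO.LBD
import Pool.Agent.Helper17_NLO.GSB
import Pool.Agent.Helper85_NLO.BLK
import Pool.Agent.Helper77_NLO.CHS
import Pool.Agent.Helper69_NLO.BMA
import Pool.Agent.Helper33_NLO.BSR

/-!
# NL: the case BETA without hypotheses
-/

set_option autoImplicit false

namespace Pool.Agent.NL.All

theorem bsr : BsrStmt := H33.bsr
theorem lbd : LbdStmt := H62.lbd rem
theorem gsb : GsbStmt := H17.gsb nrv stq lbd gnd
theorem blk : BlkStmt := H85.blk gsb
theorem chs : ChsStmt := H77.chs ank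
theorem bma : BmaStmt := H69.bma blk bsr chs lbd gnd

end Pool.Agent.NL.All
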