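import Pool.Agent.Helper53_NL.DNB
import Pool.Agent.Helper23_NLO.MRK
import Pool.Agent.Helper72_NLO.LEB
import Pool.Agent.Helper90_NLO.AVG
import Pool.Agent.Helper83_NLO.SLI
import Pool.Agent.Helper83_NLO.EXT
import Pool.Agent.Helper99_NL.SET
import Pool.Agent.Helper21_NLO.MEA
import Pool.Agent.Helper12_NLO.GOO
import Pool.Agent.Helper19_NLO.GND
import Pool.Agent.Helper12_NLO.REM
import Pool.Agent.Helper8_NLO.NRM
import Pool.Agent.Helper86_NLO.STQ
import Pool.Agent.Helper84_NLO.POS
import Pool.Agent.Helper55_NLO.RCN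
import Pool.Agent.Helper8_NLO.LOW
import Pool.Agent.Helper5_NL.RET
import Pool.Agent.Helper8_NLO.DIC
import Pool.Agent.Helper44_NLO.NRV
import Pool.Agent.Helper84_NLO.ANK

/-!
# NL: the measure part without hypotheses
-/

set_option autoImplicit false

namespace Pool.Agent.NL.All

theorem dnb : DnbStmt := H53.dnb
theorem mrk : MrkStmt := H23.mrk
theorem mea : MeaStmt := H21.mea
theorem leb : LebStmt := H72.leb mrk
theorem avg : AvgStmt := H90.avg mrk
theorem sli : SliStmt := H83.sli leb mrk mea
theorem ext : ExtStmt := H83.ext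
theorem set : SetStmt := H99.set
theorem goo : GooStmt := H12.goo sli mea
theorem gnd : GndStmt := H19.gnd ext
theorem rem : RemStmt := H12.rem avg mea
theorem nrm : NrmStmt := H8.nrm
theorem stq : StqStmt := H86.stq dnb gnd
theorem pos : PosStmt := H84.pos mea
theorem rcn : RcnStmt := H55.rcn
theorem low : LowStmt := H8.low rem rcn
theorem ret : RetStmt := H5.ret ext
theorem dic : DicStmt := H8.dic pos goo gnd leb dnb
theorem nrv : NrvStmt := H44.nrv nrm
theorem ank : AnkStmt := H84.ank

end Pool.Agent.NL.All
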