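import Mathlib

/-!
# NL: subspaces with a basis failing the Radon-Nikodym property (all separable spaces)

Definitions. The curve `f : ℝ → X` has the weak derivative `G : ℝ → Z`, `Z = ℓ_∞`, where
`G w k = (F k ∘ f)' w` for a norming sequence `F k`; `X` is embedded in `Z` by `Ψ`. A configuration
is a finite set of reals (points), a coefficient vector is a finitely supported function.
-/

set_option autoImplicit false

open MeasureTheory Filter Topology Set

noncomputable section

namespace Pool.Agent.NL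

/-- the space `ℓ_∞` -/
abbrev Z : Type := BoundedContinuousFunction ℕ ℝ

/-- the interval of length `2 / (n + 1)` around `w` -/
def nb (n : ℕ) (w : ℝ) : Set ℝ := Set.Icc (w - 1 / ((n : ℝ) + 1)) (w + 1 / ((n : ℝ) + 1))

/-- the filter of the sets of density one at `w` (the complement has outer density zero) -/
def dens (w : ℝ) : Filter ℝ where
  sets := {S | Tendsto (fun n : ℕ => ((n : ℝ) + 1) * (volume (Sᶜ ∩ nb n w)).toReal) atTop (𝓝 0)}
  univ_sets := by simp
  sets_of_superset := by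
    intro S T hS hST
    refine squeeze_zero (fun n => by positivity) (fun n => ?_) hS
    refine mul_le_mul_of_nonneg_left (ENNReal.toReal_mono ?_ ?_) (by positivity)
    · refine (measure_mono inter_subset_right).trans_lt ?_ |>.ne
      simp [nb]
    · exact measure_mono (inter_subset_inter_left _ (compl_subset_compl.2 hST))
  inter_sets := by
    intro S T hS hT
    have h := hS.add hT
    rw [add_zero] at h
    refine squeeze_zero (fun n => by positivity) (fun n => ?_) h
    rw [← mul_add]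
    refine mul_le_mul_of_nonneg_left ?_ (by positivity)
    have hf : ∀ U : Set ℝ, volume (U ∩ nb n w) ≠ ⊤ := fun U =>
      ((measure_mono inter_subset_right).trans_lt (by simp [nb])).ne
    rw [← ENNReal.toReal_add (hf _) (hf _)]
    refine ENNReal.toReal_mono (ENNReal.add_ne_top.2 ⟨hf _, hf _⟩) ?_
    rw [compl_inter, union_inter_distrib_right]
    exact measure_union_le _ _

/-- the setting: the curve `f`, the norming functionals `F`, the weak derivative `G` and the
isometric embedding `Ψ` -/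
structure Crv {X : Type} [NormedAddCommGroup X] [NormedSpace ℝ X] (f : ℝ → X)
    (F : ℕ → StrongDual ℝ X) (G : ℝ → Z) (Ψ : X →ₗᵢ[ℝ] Z) : Prop where
  lip : LipschitzWith 1 f
  nF : ∀ k, ‖F k‖ ≤ 1
  psi : ∀ x k, Ψ x k = F k x
  bdd : ∀ w, ‖G w‖ ≤ 1
  mea : ∀ k, Measurable fun w => G w k
  avg : ∀ a b : ℝ, a ≤ b → ∀ k, F k (f b) - F k (f a) = ∫ w in a..b, G w k

/-- the combination `∑ b w • G w` -/
def V (G : ℝ → Z) : (ℝ →₀ ℝ) →ₗ[ℝ] Z := Finsupp.linearCombination ℝ G

/-- the `ℓ₁` norm of a coefficient vector -/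
def l1 (b : ℝ →₀ ℝ) : ℝ := b.sum fun _ c => |c|

/-- probability vectors -/
def Pb (p : ℝ →₀ ℝ) : Prop := (∀ x, 0 ≤ p x) ∧ (p.sum fun _ c => c) = 1

section

variable {X : Type} [NormedAddCommGroup X] [NormedSpace ℝ X]

/-- the distance from `Ψ X` -/
def rho (Ψ : X →ₗᵢ[ℝ] Z) (z : Z) : ℝ := Metric.infDist z (Set.range Ψ)

/-- every point of `W` is a point of approximate continuity of the coordinates of `G`, and of the
norms of all the combinations `V G b - Ψ y` as functions of one of the points -/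
def Good (G : ℝ → Z) (Ψ : X →ₗᵢ[ℝ] Z) (W : Finset ℝ) : Prop :=
  (∀ s ∈ W, ∀ k, Tendsto (fun x => G x k) (dens s) (𝓝 (G s k))) ∧
    ∀ s ∈ W, ∀ b : ℝ →₀ ℝ, b.support ⊆ W → ∀ y : X,
      Tendsto (fun x => ‖V G b + b s • (G x - G s) - Ψ y‖) (dens s) (𝓝 ‖V G b - Ψ y‖)

open Classical in
/-- almost all the extensions of `W` have the property `P` -/
def GnP (P : Finset ℝ → Prop) (W : Finset ℝ) : Prop :=
  ∀ l : ℕ, ∀ᵐ v : Fin l → ℝ, P (W ∪ Finset.univ.image v)

/-- the generic configurations -/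
def Gn (G : ℝ → Z) (Ψ : X →ₗᵢ[ℝ] Z) (W : Finset ℝ) : Prop := GnP (Good G Ψ) W

open Classical in
/-- near-diagonal extensions of `W` reach a convex combination at a distance less than `a` from
`X` -/
inductive Rch (G : ℝ → Z) (Ψ : X →ₗᵢ[ℝ] Z) (a : ℝ) : Finset ℝ → Prop
  | stop (W : Finset ℝ) (p : ℝ →₀ ℝ) (hs : p.support ⊆ W) (hp : Pb p)
      (hr : rho Ψ (V G p) < a) : Rch G Ψ a W
  | split (W : Finset ℝ) (s : ℝ) (hs : s ∈ W) (S : Set ℝ) (hS : ∃ᶠ x in dens s, x ∈ S)
      (h : ∀ x ∈ S, Rch G Ψ a (insert x W)) : Rch G Ψ a W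

/-- in every set of positive measure there are tuples with a convex combination close to `X` -/
def TT (G : ℝ → Z) (Ψ : X →ₗᵢ[ℝ] Z) : Prop :=
  ∀ S : Set ℝ, MeasurableSet S → volume S ≠ 0 → ∀ e : ℝ, 0 < e → ∃ m : ℕ,
    ¬ ∀ᵐ x : Fin m → ℝ, (∀ i, x i ∈ S) → ∀ p : Fin m → ℝ, (∀ i, 0 ≤ p i) → ∑ i, p i = 1 →
      e ≤ rho Ψ (∑ i, p i • G (x i))

end

end Pool.Agent.NL
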