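import Pool.Agent.NL.Defs
import Pool.Agent.NE.Defs

/-!
# NL: definitions for the steps of BETA and ALPHA and for the curve
-/

set_option autoImplicit false

open MeasureTheory Filter Topology

noncomputable section

namespace Pool.Agent.NL

section

variable {X : Type} [NormedAddCommGroup X] [NormedSpace ℝ X]

/-! ### the case BETA -/

/-- the points of the case BETA -/
structure APt (G : ℝ → Z) (Ψ : X →ₗᵢ[ℝ] Z) (δ : ℝ) (A : Set ℝ) : Prop where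
  pos : 0 < δ
  gen : ∀ x ∈ A, Gn G Ψ {x}
  den : ∀ x ∈ A, A ∈ dens x
  far : ∀ x ∈ A, δ ≤ rho Ψ (G x)
  rch : ∀ x ∈ A, ∀ a : ℝ, 0 < a → Rch G Ψ a {x}

/-- `x` is a good neighbour of the point `s` of `W` (multiplicative form) -/
structure NrB (G : ℝ → Z) (Ψ : X →ₗᵢ[ℝ] Z) (W : Finset ℝ) (s : ℝ) (E : Submodule ℝ X) (ε x : ℝ) :
    Prop where
  lo : ∀ b : ℝ →₀ ℝ, b.support ⊆ W → ∀ β : ℝ, ∀ y ∈ E,
    ‖V G b + β • G s - Ψ y‖ ≤ (1 + ε) * ‖V G b + β • G x - Ψ y‖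
  up : ∀ b : ℝ →₀ ℝ, b.support ⊆ W → ∀ t : ℝ, 0 ≤ t → t ≤ 1 → ∀ y ∈ E,
    ‖V G b + (t * b s) • (G x - G s) - Ψ y‖ ≤ (1 + ε) * ‖V G b - Ψ y‖

/-- a chain of points in the case BETA: the point `x m` is a good neighbour of `x (s m)` -/
structure Chn (G : ℝ → Z) (Ψ : X →ₗᵢ[ℝ] Z) (A : Set ℝ) (W : Finset ℝ) (E : Submodule ℝ X)
    (ε : ℕ → ℝ) (N : ℕ) (x : ℕ → ℝ) (s : ℕ → ℕ) : Prop where
  lt : ∀ m, 1 ≤ m → m < N → s m < m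
  inj : Set.InjOn x (Set.Iio N)
  mem : ∀ j, j < N → x j ∈ A ∧ x j ∉ W
  gn : Gn G Ψ (W ∪ (Finset.range N).image x)
  nr : ∀ m, 1 ≤ m → m < N →
    NrB G Ψ (W ∪ (Finset.range m).image x) (x (s m)) E (ε m) (x m)

/-- the invariant of the case BETA: the leaves are different points of `A` -/
def InvB (G : ℝ → Z) (Ψ : X →ₗᵢ[ℝ] Z) (A : Set ℝ) (n : ℕ) (loc : ℕ → ℝ) : Prop :=
  (∀ i, i < n → loc i ∈ A) ∧ Set.InjOn loc (Set.Iio n) ∧ Gn G Ψ ((Finset.range n).image loc)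

/-! ### the case ALPHA -/

/-- `x` is a good neighbour of the point `s` of `T` (additive form) -/
structure Nr (G : ℝ → Z) (Ψ : X →ₗᵢ[ℝ] Z) (a : ℝ) (T : Finset ℝ) (s : ℝ) (Φ : Finset ℕ)
    (E : Submodule ℝ X) (ε x : ℝ) : Prop where
  co : ∀ k ∈ Φ, |G x k - G s k| ≤ ε
  up : ∀ b : ℝ →₀ ℝ, b.support ⊆ T → ∀ t : ℝ, 0 ≤ t → t ≤ 1 → ∀ y ∈ E,
    ‖V G b + (t * b s) • (G x - G s) - Ψ y‖ ≤ ‖V G b - Ψ y‖ + ε * (l1 b + ‖y‖)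
  nr : ∀ U ⊆ T, s ∈ U → ¬ Rch G Ψ a U → ¬ Rch G Ψ a (insert x U)

/-- copies `φ i` of the sets `K i`, `i < N`, made one after the other; `T i` is the set of the
points which exist before the copy `i` is made, `Φ i` a finite set of coordinates which is almost
norming for the combinations of these points modulo `E` -/
structure Fam (G : ℝ → Z) (Ψ : X →ₗᵢ[ℝ] Z) (a ε : ℝ) (E : Submodule ℝ X) (N : ℕ)
    (K : ℕ → Finset ℝ) (φ : ℕ → ℝ → ℝ) (T : ℕ → Finset ℝ) (Φ : ℕ → Finset ℕ) : Prop where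
  gn : ∀ i, i ≤ N → Gn G Ψ (T i)
  suc : ∀ i, i < N → T (i + 1) = T i ∪ (K i).image (φ i)
  inj : ∀ i, i < N → Set.InjOn (φ i) (K i)
  new : ∀ i, i < N → ∀ s ∈ K i, φ i s ∉ T i
  mon : ∀ i, i < N → Φ i ⊆ Φ (i + 1)
  nrm : ∀ i, i ≤ N → ∀ b : ℝ →₀ ℝ, b.support ⊆ T i → ∀ y ∈ E, ∃ k ∈ Φ i,
    ‖V G b - Ψ y‖ ≤ (1 + ε) * |(V G b - Ψ y) k|
  coo : ∀ i, i < N → ∀ s ∈ K i, ∀ k ∈ Φ i, |G (φ i s) k - G s k| ≤ ε
  nr : ∀ i, i < N → ∀ U ⊆ T i, ¬ Rch G Ψ a U → ¬ Rch G Ψ a (U ∪ (U ∩ K i).image (φ i))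
  up : ∀ i, i < N → ∀ b : ℝ →₀ ℝ, b.support ⊆ T i → ∀ y ∈ E, ∀ t : ℝ → ℝ,
    (∀ s, 0 ≤ t s ∧ t s ≤ 1) →
    ‖V G b + ∑ s ∈ K i, (t s * b s) • (G (φ i s) - G s) - Ψ y‖ ≤
      ‖V G b - Ψ y‖ + ε * (l1 b + ‖y‖)

/-- a configuration of the case ALPHA: `n` leaves `q i`, all the points are in `W` -/
structure Cfg (G : ℝ → Z) (Ψ : X →ₗᵢ[ℝ] Z) (a : ℝ) (n : ℕ) (q : ℕ → ℝ →₀ ℝ) (W : Finset ℝ) :
    Prop where
  gn : Gn G Ψ W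
  pb : ∀ i, i < n → Pb (q i)
  sub : ∀ i, i < n → (q i).support ⊆ W
  nr : ∀ i, i < n → ¬ Rch G Ψ a (q i).support
  dis : ∀ i, i < n → ∀ j, j < n → i ≠ j → Disjoint (q i).support (q j).support

/-- the invariant of the case ALPHA -/
def InvA (G : ℝ → Z) (Ψ : X →ₗᵢ[ℝ] Z) (a : ℝ) (n : ℕ) (q : ℕ → ℝ →₀ ℝ) : Prop :=
  ∃ W : Finset ℝ, Cfg G Ψ a n q W

/-- the copy of the leaf -/
def gq (q : ℝ →₀ ℝ) (φ : ℕ → ℝ → ℝ) (i : ℕ) : ℝ →₀ ℝ := Finsupp.mapDomain (φ i) q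

/-- the copy of the returning part -/
def hq (q : ℝ →₀ ℝ) (J φ : ℕ → ℝ → ℝ) (i : ℕ) : ℝ →₀ ℝ :=
  Finsupp.mapDomain (fun r => φ i (J i r)) q

/-- the child `i` (in the order of creation) -/
def lam (q : ℝ →₀ ℝ) (J φ : ℕ → ℝ → ℝ) (τ : ℝ) (i : ℕ) : ℝ →₀ ℝ :=
  (1 - τ) • gq q φ i + τ • hq q J φ i

/-- the combination of the other leaves -/
def bo (n u : ℕ) (c : ℕ → ℝ) (q : ℕ → ℝ →₀ ℝ) : ℝ →₀ ℝ := ∑ i ∈ (Finset.range n).erase u, c i • q i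

/-- the data of a step of the case ALPHA at the leaf `q`: `N` children with the weights `ϖ i`, the
points `J i r` of the batch of `r`, the copies `φ i` of the points of `q.support` and of the
`J i r`; `T i` is the set of the points before the copy `i`, `y r` the point to which the batch of
`r` returns -/
structure Mv (G : ℝ → Z) (Ψ : X →ₗᵢ[ℝ] Z) (a ε : ℝ) (W : Finset ℝ) (q : ℝ →₀ ℝ)
    (E : Submodule ℝ X) (N : ℕ) (ϖ : ℕ → ℝ) (J φ : ℕ → ℝ → ℝ) (T : ℕ → Finset ℝ) (y : ℝ → X) :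
    Prop where
  two : 2 ≤ N
  pos : ∀ i, i < N → 0 < ϖ i
  sum : ∑ i ∈ Finset.range N, ϖ i = 1
  WT : W ⊆ T 0
  suc : ∀ i, i < N → T (i + 1) = T i ∪ (q.support ∪ q.support.image (J i)).image (φ i)
  gn : ∀ i, i ≤ N → Gn G Ψ (T i)
  Jm : ∀ i, i < N → ∀ r ∈ q.support, J i r ∈ T 0 ∧ J i r ∉ W
  Jd : ∀ i, i < N → ∀ k, k < N → ∀ r ∈ q.support, ∀ r' ∈ q.support, J i r = J k r' → r = r'
  inj : ∀ i, i < N → Set.InjOn (φ i) (q.support ∪ q.support.image (J i) : Finset ℝ)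
  new : ∀ i, i < N → ∀ s ∈ q.support ∪ q.support.image (J i), φ i s ∉ T i
  nR : ∀ i, i < N → ¬ Rch G Ψ a ((q.support ∪ q.support.image (J i)).image (φ i))
  nC : ¬ Rch G Ψ a (q.support ∪ (Finset.range N).biUnion fun i => q.support.image (φ i))
  lo0 : ∀ b : ℝ →₀ ℝ, b.support ⊆ W → ∀ z ∈ E, ∃ k : ℕ,
    ‖V G b - Ψ z‖ ≤ (1 + ε) * |(V G b - Ψ z) k| ∧
      ∀ i, i < N → ∀ r ∈ q.support, |G (φ i r) k - G r k| ≤ ε ∧ |G (φ i (J i r)) k - G r k| ≤ ε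
  lo : ∀ j, j < N → ∀ b : ℝ →₀ ℝ, b.support ⊆ T j → ∀ z ∈ E, ∃ k : ℕ,
    ‖V G b - Ψ z‖ ≤ (1 + ε) * |(V G b - Ψ z) k| ∧
      ∀ i, j ≤ i → i < N → ∀ r ∈ q.support, |G (φ i r) k - G r k| ≤ ε
  up : ∀ i, i < N → ∀ b : ℝ →₀ ℝ, b.support ⊆ T i → ∀ z ∈ E ⊔ Submodule.span ℝ (y '' q.support),
    ∀ t : ℝ → ℝ, (∀ s, 0 ≤ t s ∧ t s ≤ 1) →
    ‖V G b + ∑ s ∈ q.support ∪ q.support.image (J i), (t s * b s) • (G (φ i s) - G s) - Ψ z‖ ≤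
      ‖V G b - Ψ z‖ + ε / N * (l1 b + ‖z‖)
  upJ : ∀ i, i < N → ∀ b : ℝ →₀ ℝ, b.support ⊆ W → ∀ z ∈ E, ∀ t : ℝ → ℝ,
    (∀ s, 0 ≤ t s ∧ t s ≤ 1) →
    ‖V G b + ∑ r ∈ q.support, (t r * b r) • (G (J i r) - G r) - Ψ z‖ ≤
      ‖V G b - Ψ z‖ + ε * (l1 b + ‖z‖)
  ret : ∀ r ∈ q.support, ‖∑ i ∈ Finset.range N, ϖ i • G (J i r) - Ψ (y r)‖ ≤ ε

end

/-! ### stars -/

/-- the children in the order of their creation: the child `0` is the last one -/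
def ci (N j : ℕ) : ℕ := if j = 0 then N - 1 else j - 1

section

variable {Y : Type} [NormedAddCommGroup Y] [NormedSpace ℝ Y]

/-- the estimates for a star, in the order of the creation -/
structure StH (B : Submodule ℝ Y) (v : Y) (N : ℕ) (ϖ : ℕ → ℝ) (ℓ : ℕ → Y) (η C : ℝ) : Prop where
  up : ∀ b ∈ B, ∀ A : ℝ, ‖b + A • ∑ i ∈ Finset.range N, ϖ i • ℓ i‖ ≤ (1 + η) * ‖b + A • v‖
  lo : ∀ b ∈ B, ∀ c : ℕ → ℝ, ‖b + (∑ i ∈ Finset.range N, c i) • v‖ ≤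
    (1 + η) * ‖b + ∑ i ∈ Finset.range N, c i • ℓ i‖
  inn : ∀ b ∈ B, ∀ (c : ℕ → ℝ) (k : ℕ), k < N →
    ‖b + ∑ i ∈ Finset.range k, c i • ℓ i +
      ((∑ i ∈ Finset.Ico k N, c i) / ∑ i ∈ Finset.Ico k N, ϖ i) •
        ∑ i ∈ Finset.Ico k N, ϖ i • ℓ i‖ ≤ C * ‖b + ∑ i ∈ Finset.range N, c i • ℓ i‖
  nz : ∀ c : ℕ → ℝ, ∑ i ∈ Finset.range N, c i • ℓ i = 0 → ∀ i, i < N → c i = 0

/-- the linear estimates of the case ALPHA -/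
structure AlH (B : Submodule ℝ Y) (v : Y) (N : ℕ) (g h : ℕ → Y) (a τ ε : ℝ) : Prop where
  g1 : ∀ i, i < N → ‖g i‖ ≤ 1
  h1 : ∀ i, i < N → ‖h i‖ ≤ 1
  low : ∀ b ∈ B, ∀ (α : ℝ) (c : ℕ → ℝ), a / 2 * (|α| + ∑ i ∈ Finset.range N, |c i|) ≤
    ‖b + α • v + ∑ i ∈ Finset.range N, c i • g i‖
  up1 : ∀ b ∈ B, ∀ A : ℝ, ∀ i, i < N →
    ‖b + A • ((1 - τ) • g i + τ • h i)‖ ≤ (1 + ε) * ‖b + A • v‖
  lo1 : ∀ b ∈ B, ∀ c : ℕ → ℝ, ‖b + (∑ i ∈ Finset.range N, c i) • v‖ ≤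
    (1 + ε) * (‖b + ∑ i ∈ Finset.range N, c i • ((1 - τ) • g i + τ • h i)‖ +
      ε * ∑ i ∈ Finset.range N, |c i|)
  slo : ∀ b ∈ B, ∀ (c : ℕ → ℝ) (k : ℕ), k < N →
    ‖b + ∑ i ∈ Finset.range k, c i • g i + (∑ i ∈ Finset.Ico k N, c i) • v‖ ≤
      (1 + ε) * (‖b + ∑ i ∈ Finset.range N, c i • g i‖ + ε * ∑ i ∈ Finset.range N, |c i|)
  sup : ∀ b ∈ B, ∀ (c : ℕ → ℝ) (k i : ℕ) (α : ℝ), k ≤ i → i < N →
    ‖b + ∑ j ∈ Finset.range k, c j • g j + α • g i‖ ≤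
      (1 + ε) * ‖b + ∑ j ∈ Finset.range k, c j • g j + α • v‖

end

/-! ### the curve -/

/-- the left endpoints of the intervals -/
structure AlP (σ : ℕ → ℕ) (w : ℕ → ℕ → ℝ) (α : ℕ → ℝ) : Prop where
  zero : α 0 = 0
  suc : ∀ n, 1 ≤ n → α n = α (σ n) + w (n + 1) (σ n)

/-- the length of the part of the interval `i` of the time `n` which lies to the left of `x` -/
def cw (w : ℕ → ℕ → ℝ) (α : ℕ → ℝ) (n i : ℕ) (x : ℝ) : ℝ := max 0 (min (x - α i) (w n i))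

/-- the curve of the time `n` -/
def gg {X : Type} [NormedAddCommGroup X] [NormedSpace ℝ X] (w : ℕ → ℕ → ℝ) (α : ℕ → ℝ)
    (Y : ℕ → ℕ → X) (n : ℕ) (x : ℝ) : X := ∑ i ∈ Finset.range n, cw w α n i x • Y n i

end Pool.Agent.NL
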