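import Pool.Agent.NL.StmtsB

/-!
# NL: statements of the case ALPHA

A leaf is a probability vector `q` (finitely supported function on `ℝ`), its value is `V G q`. See the
docstrings for the complete proofs.
-/

set_option autoImplicit false

open MeasureTheory Filter Topology

noncomputable section

namespace Pool.Agent.NL

/-! ### points, batches, copies -/

/-- GPT: good neighbours (additive form). Proof: `STQ` for `T, s, Φ, E, ε` gives the first three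
properties and `Nr.up` for `t = 1`; for `0 ≤ t ≤ 1`: `V G b + (t * b s) • (G x - G s) - Ψ y =
(1 - t) • (V G b - Ψ y) + t • (V G b + b s • (G x - G s) - Ψ y)`. `Nr.nr`: `RCN` (second part) for the
finitely many `U ∈ T.powerset` with `s ∈ U`, `¬ Rch U` (`Filter.eventually_all_finset`). -/
def GptStmt : Prop := ∀ (X : Type) [NormedAddCommGroup X] [NormedSpace ℝ X] (f : ℝ → X)
  (F : ℕ → StrongDual ℝ X) (G : ℝ → Z) (Ψ : X →ₗᵢ[ℝ] Z), Crv f F G Ψ → ∀ (a : ℝ) (T : Finset ℝ),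
    Gn G Ψ T → ∀ s ∈ T, ∀ (Φ : Finset ℕ) (E : Submodule ℝ X) [FiniteDimensional ℝ E] (ε : ℝ),
      0 < ε → ∀ᶠ x in dens s, x ∉ T ∧ Gn G Ψ (insert x T) ∧ Nr G Ψ a T s Φ E ε x

/-- CPY: a copy of a finite set `K` of points of `T`. Proof: induction on `K`
(`Finset.induction_on`), for all `ε`. `K = ∅`: clear. `insert s K`, `s ∉ K`: let `φ₀` be the map for `K`
and `ε / 2`, `T₁ = T ∪ K.image φ₀`; by `GPT` for `T₁, s, Φ, E, ε / 2` (`dens s` is proper, `DNB`) there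
is `x ∉ T₁` with `Gn (insert x T₁)` and `Nr … T₁ s … x`; `φ = Function.update φ₀ s x`.
`Rch` clause: for `U ⊆ T` let `U₁ = U ∪ (U ∩ K).image φ₀`, `¬ Rch U₁`; if `s ∈ U` use `Nr.nr` for
`U₁`, if `s ∉ U` then `U ∩ insert s K = U ∩ K`. Last clause: let
`b₁ = b + ∑ s' ∈ K, (t s' * b s') • (single (φ₀ s') 1 - single s' 1)`; its support is in `T₁`,
`b₁ s = b s` (`s ∉ K`, `φ₀ s' ∉ T`), `l1 b₁ ≤ l1 b` (`b₁` is the sum over `x ∈ T` of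
`b x • single x 1` or `b x • ((1 - t x) • single x 1 + t x • single (φ₀ x) 1)`); `Nr.up` for `b₁`, then
the induction hypothesis: the errors are `ε / 2 + ε / 2`. -/
def CpyStmt : Prop := ∀ (X : Type) [NormedAddCommGroup X] [NormedSpace ℝ X] (f : ℝ → X)
  (F : ℕ → StrongDual ℝ X) (G : ℝ → Z) (Ψ : X →ₗᵢ[ℝ] Z), Crv f F G Ψ → ∀ (a : ℝ) (T : Finset ℝ),
    Gn G Ψ T → ∀ K ⊆ T, ∀ (Φ : Finset ℕ) (E : Submodule ℝ X) [FiniteDimensional ℝ E] (ε : ℝ),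
      0 < ε → ∃ φ : ℝ → ℝ, Set.InjOn φ K ∧ (∀ s ∈ K, φ s ∉ T) ∧ Gn G Ψ (T ∪ K.image φ) ∧
        (∀ s ∈ K, ∀ k ∈ Φ, |G (φ s) k - G s k| ≤ ε) ∧
        (∀ U ⊆ T, ¬ Rch G Ψ a U → ¬ Rch G Ψ a (U ∪ (U ∩ K).image φ)) ∧
        ∀ b : ℝ →₀ ℝ, b.support ⊆ T → ∀ y ∈ E, ∀ t : ℝ → ℝ, (∀ s, 0 ≤ t s ∧ t s ≤ 1) →
          ‖V G b + ∑ s ∈ K, (t s * b s) • (G (φ s) - G s) - Ψ y‖ ≤
            ‖V G b - Ψ y‖ + ε * (l1 b + ‖y‖)

/-- FAM: `N` copies one after the other. Proof: induction on `N`. `N = 0`: `T i = T₀`,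
`Φ i = Φ₀ ∪ Φ'`, `Φ'` from `NRV` for `T₀`. Step: given the family of length `N` (`K i ⊆ T₀ ⊆ T N`) apply
`CPY` to `T N, K N, Φ N, E, ε`: `φ'`; put `φ N = φ'`, `T (N + 1) = T N ∪ (K N).image φ'`,
`Φ (N + 1) = Φ N ∪ Φ'` with `Φ'` from `NRV` for `T (N + 1)`, and do not change the other values
(`Function.update`); `Fam` only involves the values at `i ≤ N`. -/
def FamStmt : Prop := ∀ (X : Type) [NormedAddCommGroup X] [NormedSpace ℝ X] (f : ℝ → X)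
  (F : ℕ → StrongDual ℝ X) (G : ℝ → Z) (Ψ : X →ₗᵢ[ℝ] Z), Crv f F G Ψ → ∀ (a : ℝ) (T₀ : Finset ℝ),
    Gn G Ψ T₀ → ∀ (Φ₀ : Finset ℕ) (E : Submodule ℝ X) [FiniteDimensional ℝ E] (ε : ℝ), 0 < ε →
      ∀ (N : ℕ) (K : ℕ → Finset ℝ), (∀ i, i < N → K i ⊆ T₀) →
        ∃ (φ : ℕ → ℝ → ℝ) (T : ℕ → Finset ℝ) (Φ : ℕ → Finset ℕ), Fam G Ψ a ε E N K φ T Φ ∧
          T 0 = T₀ ∧ Φ₀ ⊆ Φ 0

/-- BAT: the batches. Proof: induction on `R` (`Finset.induction_on`; the hypothesis `R ⊆ W` is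
inherited), for all `ε`. `insert r R`, `r ∉ R`: let `p₀, y₀` be the data for `R` and `ε / 2`,
`T = W ∪ R.biUnion (support of p₀)`, `Gn T`, `r ∈ W ⊆ T`. By `GPT` for `T, r, Φ, E, ε / 2` the set
`S` of the `x ∉ T` with `Nr G Ψ a T r Φ E (ε / 2) x` is in `dens r`. `RET` for `T, r, S, ε`: `p', y'`;
put `p r = p'`, `y r = y'` (`Function.update`). Let `κ` be given. First clause: `U₁ = U ∪ R.image κ`
is not in `Rch` by induction (`U₁ ⊆ T`, `r ∈ U₁`), so `Nr.nr` for `x = κ r`. Second clause: as in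
`CPY`: `b₁ = b + ∑ r' ∈ R, (t r' * b r') • (single (κ r') 1 - single r' 1)` has its support in `T`,
`b₁ r = b r`, `l1 b₁ ≤ l1 b`; `Nr.up` for `x = κ r` and the induction hypothesis. -/
def BatStmt : Prop := ∀ (X : Type) [NormedAddCommGroup X] [NormedSpace ℝ X] (f : ℝ → X)
  (F : ℕ → StrongDual ℝ X) (G : ℝ → Z) (Ψ : X →ₗᵢ[ℝ] Z), Crv f F G Ψ → TT G Ψ →
    ∀ (a : ℝ) (W : Finset ℝ), Gn G Ψ W → ∀ R ⊆ W, ∀ (Φ : Finset ℕ) (E : Submodule ℝ X)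
      [FiniteDimensional ℝ E] (ε : ℝ), 0 < ε → ∃ (p : ℝ → ℝ →₀ ℝ) (y : ℝ → X),
        (∀ r ∈ R, Pb (p r) ∧ Disjoint (p r).support W ∧ ‖V G (p r) - Ψ (y r)‖ < ε ∧
          ∀ x ∈ (p r).support, ∀ k ∈ Φ, |G x k - G r k| ≤ ε) ∧
        (∀ r ∈ R, ∀ r' ∈ R, r ≠ r' → Disjoint (p r).support (p r').support) ∧
        Gn G Ψ (W ∪ R.biUnion fun r => (p r).support) ∧
        ∀ κ : ℝ → ℝ, (∀ r ∈ R, κ r ∈ (p r).support) →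
          (∀ U ⊆ W, R ⊆ U → ¬ Rch G Ψ a U → ¬ Rch G Ψ a (U ∪ R.image κ)) ∧
          ∀ b : ℝ →₀ ℝ, b.support ⊆ W → ∀ z ∈ E, ∀ t : ℝ → ℝ, (∀ s, 0 ≤ t s ∧ t s ≤ 1) →
            ‖V G b + ∑ r ∈ R, (t r * b r) • (G (κ r) - G r) - Ψ z‖ ≤
              ‖V G b - Ψ z‖ + ε * (l1 b + ‖z‖)

/-- COU: a coupling of finitely many probability vectors. Proof: induction on `R`. `∅`: `N = 1`,
`ϖ 0 = 1`. `insert r R`: let `N, ϖ, J` be the coupling for `R` and let `x k`, `k < m`, be the points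
of `(p r).support` (`Finset.equivFin` / `Finset.orderEmbOfFin`; `m ≥ 1`); put `N' = N * m`,
`ϖ' i = ϖ (i / m) * p r (x (i % m))`, `J' i r' = J (i / m) r'` for `r' ∈ R` and `J' i r = x (i % m)`
(`Finset.sum_range` over `N * m` as a double sum: `Finset.sum_range_mul...` /
`finProdFinEquiv`). Or: `ι = R.pi fun r => (p r).support` (or `Fintype.piFinset`) with the weights
`∏ r, p r (κ r)` (`Finset.prod_univ_sum`), and `N = card ι`. -/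
def CouStmt : Prop := ∀ (R : Finset ℝ) (p : ℝ → ℝ →₀ ℝ), (∀ r ∈ R, Pb (p r)) →
  ∃ (N : ℕ) (ϖ : ℕ → ℝ) (J : ℕ → ℝ → ℝ), (∀ i, i < N → 0 < ϖ i) ∧
    ∑ i ∈ Finset.range N, ϖ i = 1 ∧ (∀ i, i < N → ∀ r ∈ R, J i r ∈ (p r).support) ∧
    ∀ r ∈ R, ∑ i ∈ Finset.range N, ϖ i • Finsupp.single (J i r) (1 : ℝ) = p r

/-- MOV: the data of a step. Proof: let `R = q.support`, `Φ₀` from `NRV` for `W, E, ε`; `BAT` for
`R, Φ₀, E, ε / 2`: `p, y`; `COU`: `N, ϖ, J`; `T₀ = W ∪ R.biUnion …`, `E' = E ⊔ span (y '' R)` (finite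
dimensional), `K i = R ∪ R.image (J i)`; `FAM` for `T₀, Φ₀, E', (ε / 2) / N, N, K` (`N ≥ 1` since
`∑ ϖ = 1`): `φ, T, Φ`. `two`: `R` is not empty (`Pb q`); if `N = 1` then for `r ∈ R`
`p r = single (J 0 r) 1`, and `¬ Rch (R ∪ R.image (J 0))` (BAT, `U = R`), so `a ≤ rho Ψ (V G (p r))`
(`RCN`, first part), but `rho Ψ (V G (p r)) ≤ ‖V G (p r) - Ψ (y r)‖ < ε / 2 < a`. `Jm, Jd`: the
supports of the `p r` are disjoint from `W` and from each other. `nR`: `Fam.nr` for `U = K i`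
(`¬ Rch (K i)` by BAT) and `RCN` (third part). `nC`: by induction on `i ≤ N`
`¬ Rch (R ∪ (range i).biUnion fun j => R.image (φ j))`: `Fam.nr` for this set `U ⊆ T i`
(`R ⊆ U ∩ K i`) and `RCN` (third part). `lo0`: `k ∈ Φ₀ ⊆ Φ i` (`Fam.mon`), `Fam.coo` for `r` and
`J i r`, and BAT for `|G (J i r) k - G r k|`. `lo`: `Fam.nrm j`, `Φ j ⊆ Φ i`, `Fam.coo`. `up`: `Fam.up`.
`upJ`: BAT for `κ = J i`. `ret`: `∑ ϖ i • G (J i r) = V G (p r)` (`COU`). -/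
def MovStmt : Prop := ∀ (X : Type) [NormedAddCommGroup X] [NormedSpace ℝ X] (f : ℝ → X)
  (F : ℕ → StrongDual ℝ X) (G : ℝ → Z) (Ψ : X →ₗᵢ[ℝ] Z), Crv f F G Ψ → TT G Ψ →
    ∀ a ε : ℝ, 0 < ε → ε ≤ a → ∀ W : Finset ℝ, Gn G Ψ W → ∀ q : ℝ →₀ ℝ, Pb q → q.support ⊆ W →
      ¬ Rch G Ψ a q.support → ∀ (E : Submodule ℝ X) [FiniteDimensional ℝ E],
      ∃ (N : ℕ) (ϖ : ℕ → ℝ) (J φ : ℕ → ℝ → ℝ) (T : ℕ → Finset ℝ) (y : ℝ → X),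
        Mv G Ψ a ε W q E N ϖ J φ T y

/-! ### the estimates -/

/-- the hypotheses of the estimates -/
structure Sit {X : Type} [NormedAddCommGroup X] [NormedSpace ℝ X] (f : ℝ → X)
    (F : ℕ → StrongDual ℝ X) (G : ℝ → Z) (Ψ : X →ₗᵢ[ℝ] Z) (a ε : ℝ) (n u : ℕ) (q : ℕ → ℝ →₀ ℝ)
    (W : Finset ℝ) (E : Submodule ℝ X) (N : ℕ) (ϖ : ℕ → ℝ) (J φ : ℕ → ℝ → ℝ)
    (T : ℕ → Finset ℝ) (y : ℝ → X) : Prop where
  crv : Crv f F G Ψ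
  a0 : 0 < a
  e0 : 0 < ε
  e1 : ε ≤ 1
  cfg : Cfg G Ψ a n q W
  hu : u < n
  mv : Mv G Ψ a ε W (q u) E N ϖ J φ T y

/-- AKB: the `ℓ₁` bounds. Proof: let `R = (q u).support`, `b` the coefficient vector,
`S = ‖V G b - Ψ z‖ ≥ rho Ψ (V G b)`; `b.support ⊆ T N`, `Good (T N)` (`GND`). The supports of the
`q i` (`i ≠ u`), of `q u` and of the `gq (q u) φ i` (it is `R.image (φ i)`, disjoint from `T i`,
contained in `T (i + 1)`) are pairwise disjoint. `LOW` for `C = R ∪ biUnion (R.image (φ i))`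
(`Mv.nC`): `a / 2 * (|α| + ∑ |c' i|) ≤ rho Ψ (V G b)`, since `∑ x ∈ R, |α * q u x| = |α|` (`Pb`) and
`∑ x ∈ R.image (φ i), |b x| = |c' i|` (`φ i` is injective on `R`). `LOW` for `C = (q i).support`
(`i ≠ u`, `Cfg.nr`): `a / 2 * |c i| ≤ rho Ψ (V G b)`. Hence
`l1 (bo …) + |α| + ∑ |c' i| ≤ n * (2 / a) * S`, and `‖z‖ = ‖Ψ z‖ ≤ S + ‖V G b‖ ≤ S + l1 b`. -/
def AkbStmt : Prop := ∀ (X : Type) [NormedAddCommGroup X] [NormedSpace ℝ X] (f : ℝ → X)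
  (F : ℕ → StrongDual ℝ X) (G : ℝ → Z) (Ψ : X →ₗᵢ[ℝ] Z) (a ε : ℝ) (n u : ℕ) (q : ℕ → ℝ →₀ ℝ)
  (W : Finset ℝ) (E : Submodule ℝ X) (N : ℕ) (ϖ : ℕ → ℝ) (J φ : ℕ → ℝ → ℝ) (T : ℕ → Finset ℝ)
  (y : ℝ → X), Sit f F G Ψ a ε n u q W E N ϖ J φ T y → ∀ (c c' : ℕ → ℝ) (α : ℝ) (z : X),
    a / 2 * (|α| + ∑ i ∈ Finset.range N, |c' i|) ≤
      ‖V G (bo n u c q + α • q u + ∑ i ∈ Finset.range N, c' i • gq (q u) φ i) - Ψ z‖ ∧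
    l1 (bo n u c q) + |α| + ∑ i ∈ Finset.range N, |c' i| + ‖z‖ ≤ (1 + 4 * n / a) *
      ‖V G (bo n u c q + α • q u + ∑ i ∈ Finset.range N, c' i • gq (q u) φ i) - Ψ z‖

/-- AUP: replacement of the leaf by one child. Proof: let `R = (q u).support`,
`b' = bo … + A • q u`, `b = bo … + A • ((1 - τ) • q u + τ • mapDomain (J i) (q u))`. `Mv.upJ` for `b'`,
`t = τ`: `‖V G b - Ψ z‖ ≤ ‖V G b' - Ψ z‖ + ε * (l1 b' + ‖z‖)` (`b' r = A * q u r` for `r ∈ R`, since the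
supports of the `q i` are disjoint). `Mv.up` for `b` (support in `T 0 ⊆ T i`), `t = 1`:
`V G b + ∑ = V G (bo … + A • lam …)` (`b r = A (1 - τ) q u r`, `b (J i r) = A τ q u r`; `J i r ∉ W`,
`J i` is injective on `R`), so `≤ ‖V G b - Ψ z‖ + ε * (l1 b + ‖z‖)`. `l1 b, l1 b' ≤ l1 (bo …) + |A|`.
`AKB` with `c' = 0`, `α = A`. -/
def AupStmt : Prop := ∀ (X : Type) [NormedAddCommGroup X] [NormedSpace ℝ X] (f : ℝ → X)
  (F : ℕ → StrongDual ℝ X) (G : ℝ → Z) (Ψ : X →ₗᵢ[ℝ] Z) (a ε : ℝ) (n u : ℕ) (q : ℕ → ℝ →₀ ℝ)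
  (W : Finset ℝ) (E : Submodule ℝ X) (N : ℕ) (ϖ : ℕ → ℝ) (J φ : ℕ → ℝ → ℝ) (T : ℕ → Finset ℝ)
  (y : ℝ → X), Sit f F G Ψ a ε n u q W E N ϖ J φ T y → ∀ τ : ℝ, 0 ≤ τ → τ ≤ 1 →
    ∀ (c : ℕ → ℝ) (A : ℝ) (i : ℕ), i < N → ∀ z ∈ E,
      ‖V G (bo n u c q + A • lam (q u) J φ τ i) - Ψ z‖ ≤
        (1 + 2 * ε * (1 + 4 * n / a)) * ‖V G (bo n u c q + A • q u) - Ψ z‖

/-- ALO: merging the children into the leaf. Proof: `Mv.lo0` for `b = bo … + (∑ c') • q u` (support in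
`W`): `k`. At the coordinate `k` the two vectors differ by `∑ c' i * (V G (lam … i) - V G (q u)) k`, and
`|(V G (lam … i) - V G (q u)) k| ≤ ∑ r, q u r * ((1 - τ) * |G (φ i r) k - G r k| +
τ * |G (φ i (J i r)) k - G r k|) ≤ ε`. -/
def AloStmt : Prop := ∀ (X : Type) [NormedAddCommGroup X] [NormedSpace ℝ X] (f : ℝ → X)
  (F : ℕ → StrongDual ℝ X) (G : ℝ → Z) (Ψ : X →ₗᵢ[ℝ] Z) (a ε : ℝ) (n u : ℕ) (q : ℕ → ℝ →₀ ℝ)
  (W : Finset ℝ) (E : Submodule ℝ X) (N : ℕ) (ϖ : ℕ → ℝ) (J φ : ℕ → ℝ → ℝ) (T : ℕ → Finset ℝ)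
  (y : ℝ → X), Sit f F G Ψ a ε n u q W E N ϖ J φ T y → ∀ τ : ℝ, 0 ≤ τ → τ ≤ 1 →
    ∀ c c' : ℕ → ℝ, ∀ z ∈ E,
      ‖V G (bo n u c q + (∑ i ∈ Finset.range N, c' i) • q u) - Ψ z‖ ≤
        (1 + ε) * (‖V G (bo n u c q + ∑ i ∈ Finset.range N, c' i • lam (q u) J φ τ i) - Ψ z‖ +
          ε * ∑ i ∈ Finset.range N, |c' i|)

/-- ASL: merging the last copies into the leaf. Proof: as `ALO`, with `Mv.lo` for `j = k` (the left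
vector has its support in `T k`). -/
def AslStmt : Prop := ∀ (X : Type) [NormedAddCommGroup X] [NormedSpace ℝ X] (f : ℝ → X)
  (F : ℕ → StrongDual ℝ X) (G : ℝ → Z) (Ψ : X →ₗᵢ[ℝ] Z) (a ε : ℝ) (n u : ℕ) (q : ℕ → ℝ →₀ ℝ)
  (W : Finset ℝ) (E : Submodule ℝ X) (N : ℕ) (ϖ : ℕ → ℝ) (J φ : ℕ → ℝ → ℝ) (T : ℕ → Finset ℝ)
  (y : ℝ → X), Sit f F G Ψ a ε n u q W E N ϖ J φ T y →
    ∀ (c c' : ℕ → ℝ) (k : ℕ), k < N → ∀ z ∈ E,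
      ‖V G (bo n u c q + ∑ i ∈ Finset.range k, c' i • gq (q u) φ i +
          (∑ i ∈ Finset.Ico k N, c' i) • q u) - Ψ z‖ ≤
        (1 + ε) * (‖V G (bo n u c q + ∑ i ∈ Finset.range N, c' i • gq (q u) φ i) - Ψ z‖ +
          ε * ∑ i ∈ Finset.range N, |c' i|)

/-- ASU: replacement of the leaf by a later copy. Proof: `Mv.up i` for
`b = bo … + ∑ j ∈ range k, c' j • gq j + α • q u` (support in `T k ⊆ T i`), `t = 1` on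
`R = (q u).support` and `0` elsewhere: `b r = α * q u r` for `r ∈ R` (for `s ∈ R.image (J i)` the point
`s` is not in `R ⊆ W`, so `t s = 0`), so `V G b + ∑ = V G (bo … + ∑ … + α • gq i)`, and
`≤ ‖V G b - Ψ z‖ + ε / N * (l1 b + ‖z‖)`; `l1 b ≤ l1 (bo …) + ∑ j ∈ range k, |c' j| + |α|`; `AKB` with
`c'` cut off at `k`. -/
def AsuStmt : Prop := ∀ (X : Type) [NormedAddCommGroup X] [NormedSpace ℝ X] (f : ℝ → X)
  (F : ℕ → StrongDual ℝ X) (G : ℝ → Z) (Ψ : X →ₗᵢ[ℝ] Z) (a ε : ℝ) (n u : ℕ) (q : ℕ → ℝ →₀ ℝ)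
  (W : Finset ℝ) (E : Submodule ℝ X) (N : ℕ) (ϖ : ℕ → ℝ) (J φ : ℕ → ℝ → ℝ) (T : ℕ → Finset ℝ)
  (y : ℝ → X), Sit f F G Ψ a ε n u q W E N ϖ J φ T y →
    ∀ (c c' : ℕ → ℝ) (α : ℝ) (k i : ℕ), k ≤ i → i < N → ∀ z ∈ E,
      ‖V G (bo n u c q + ∑ j ∈ Finset.range k, c' j • gq (q u) φ j + α • gq (q u) φ i) - Ψ z‖ ≤
        (1 + ε * (1 + 4 * n / a)) *
          ‖V G (bo n u c q + ∑ j ∈ Finset.range k, c' j • gq (q u) φ j + α • q u) - Ψ z‖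

/-- ARE: the return. Proof: let `R = (q u).support`, `z' = z + (A * τ) • ∑ r ∈ R, q u r • y r`
(`∈ E ⊔ span (y '' R)`), and for `k ≤ N` `b k = bo … + A • ∑ i ∈ range k, ϖ i • lam … i +
A • ∑ i ∈ Ico k N, ϖ i • ((1 - τ) • q u + τ • mapDomain (J i) (q u))` (support in `T k`). For `k < N`
`Mv.up k` for `b k` and `t s = ` (the part which moves) `/ b k s`: for `s = r ∈ R` the part is
`A * ϖ k * (1 - τ) * q u r`, for `s = J k r` it is `A * ϖ k * τ * q u r`; `b k s` is `A` times a sum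
of nonnegative terms which contains this term (without the factor `A`), so `0 ≤ t s ≤ 1` (`0 / 0 = 0`
is harmless: then the part is `0`). Hence
`‖V G (b (k + 1)) - Ψ z'‖ ≤ ‖V G (b k) - Ψ z'‖ + ε / N * (l1 (b k) + ‖z'‖)`, and
`l1 (b k) ≤ l1 (bo …) + |A|`, `‖z'‖ ≤ ‖z‖ + 2 * |A|` (`‖y r‖ ≤ 1 + ε ≤ 2` by `Mv.ret`). Sum over `k`:
`‖V G (b N) - Ψ z'‖ ≤ ‖V G (b 0) - Ψ z'‖ + ε * (l1 (bo …) + ‖z‖ + 3 * |A|)`. And
`V G (b 0) - Ψ z' = V G (bo … + (A * (1 - τ)) • q u) - Ψ z +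
(A * τ) • ∑ r ∈ R, q u r • (∑ i, ϖ i • G (J i r) - Ψ (y r))`, the last term has norm
`≤ |A| * ε` (`Mv.ret`). `AKB` with `α = A * (1 - τ)`, `c' = 0`. -/
def AreStmt : Prop := ∀ (X : Type) [NormedAddCommGroup X] [NormedSpace ℝ X] (f : ℝ → X)
  (F : ℕ → StrongDual ℝ X) (G : ℝ → Z) (Ψ : X →ₗᵢ[ℝ] Z) (a ε : ℝ) (n u : ℕ) (q : ℕ → ℝ →₀ ℝ)
  (W : Finset ℝ) (E : Submodule ℝ X) (N : ℕ) (ϖ : ℕ → ℝ) (J φ : ℕ → ℝ → ℝ) (T : ℕ → Finset ℝ)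
  (y : ℝ → X), Sit f F G Ψ a ε n u q W E N ϖ J φ T y → ∀ τ : ℝ, 0 ≤ τ → τ ≤ 1 →
    ∀ (c : ℕ → ℝ) (A : ℝ), ∀ z ∈ E,
      ‖V G (bo n u c q + A • ∑ i ∈ Finset.range N, ϖ i • lam (q u) J φ τ i) -
          Ψ (z + (A * τ) • ∑ r ∈ (q u).support, q u r • y r)‖ ≤
        (1 + ε * (1 + 4 * n / a)) * ‖V G (bo n u c q + (A * (1 - τ)) • q u) - Ψ z‖ +
          4 * ε * |A|

/-! ### linear algebra -/

/-- STR: a star is a step. Proof: `ci N` is a permutation of `range N` (second part: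
`Finset.sum_range_succ'`, `Finset.sum_range_succ`). With `s = 0` the class of `j` at the level `m`
(`1 ≤ m < N`) is `{j}` for `1 ≤ j < m`, and `{0} ∪ [m, N)` for `j = 0` or `j ≥ m` (`anc s m j = j` for
`j < m`, `= 0` for `j ≥ m`). Let `c i = a (i + 1)` for `i < N - 1`, `c (N - 1) = a 0` (so
`a j = c (ci N j)` for `j < N`), `k = m - 1`: then `∑ j ∈ range N, Qs … m a j • ℓ (ci N j)` is the sum
in `StH.inn`. `lt`: `0 < m`. -/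
def StrStmt : Prop := ∀ (Y : Type) [NormedAddCommGroup Y] [NormedSpace ℝ Y] (B : Submodule ℝ Y)
  (v : Y) (N : ℕ) (ϖ : ℕ → ℝ) (ℓ : ℕ → Y) (η C : ℝ), 2 ≤ N → (∀ i, i < N → 0 < ϖ i) →
    ∑ i ∈ Finset.range N, ϖ i = 1 → StH B v N ϖ ℓ η C →
      NE.Step B v N (fun j => ϖ (ci N j)) (fun _ => 0) (fun j => ℓ (ci N j)) η C ∧
      ∀ f : ℕ → Y, ∑ j ∈ Finset.range N, f (ci N j) = ∑ i ∈ Finset.range N, f i

/-- ALS: the linear estimates of the case ALPHA. Proof: `τ = a / 16`, `ℓ i = (1 - τ) • g i + τ • h i`,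
`‖ℓ i - g i‖ ≤ 2 τ`. For `b ∈ B` and `c` let `Sg = ‖b + ∑ c i • g i‖`, `Sl = ‖b + ∑ c i • ℓ i‖`,
`|c| = ∑ i ∈ range N, |c i|`. `low` with `α = 0`: `|c| ≤ 2 / a * Sg`; so
`|Sl - Sg| ≤ 2 τ |c| ≤ Sg / 4`, `Sg ≤ 4 / 3 * Sl`, `Sl ≤ 5 / 4 * Sg`, `|c| ≤ 8 / (3 a) * Sl`.
`up`: `b + A • ∑ ϖ i • ℓ i = ∑ ϖ i • (b + A • ℓ i)`, `up1`. `lo`: `lo1`:
`≤ (1 + ε) (1 + ε * 8 / (3 a)) * Sl ≤ (1 + η) * Sl` (`ε ≤ a * η / 40`). `nz`: `b = 0`, `Sl = 0`.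
`inn`: let `P = ∑ i ∈ Ico k N, ϖ i > 0`, `α = ∑ i ∈ Ico k N, c i`, `c'' i = c i` for `i < k` and
`α * ϖ i / P` for `k ≤ i < N`. The left side is `‖b + ∑ c'' i • ℓ i‖ ≤ 5 / 4 * ‖b + ∑ c'' i • g i‖`, and
`b + ∑ c'' i • g i = ∑ i ∈ Ico k N, (ϖ i / P) • (b + ∑ j ∈ range k, c j • g j + α • g i)`; by `sup`,
`slo`: `≤ (1 + ε) * ‖b + ∑ j ∈ range k, c j • g j + α • v‖ ≤ (1 + ε) ^ 2 * (Sg + ε * |c|) ≤
(1 + ε) ^ 2 * (1 + 2 * ε / a) * Sg`. Together `5 / 4 * 4 / 3 * (1 + ε) ^ 2 * (1 + 2 * ε / a) ≤ 2`,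
since `ε ≤ 1 / 40`, `ε / a ≤ 1 / 40`. -/
def AlsStmt : Prop := ∀ (Y : Type) [NormedAddCommGroup Y] [NormedSpace ℝ Y] (B : Submodule ℝ Y)
  (v : Y) (N : ℕ) (ϖ : ℕ → ℝ) (g h : ℕ → Y) (a ε η : ℝ), 2 ≤ N → (∀ i, i < N → 0 < ϖ i) →
    ∑ i ∈ Finset.range N, ϖ i = 1 → 0 < a → a ≤ 1 → 0 < η → η ≤ 1 → 0 < ε → ε ≤ a * η / 40 →
      AlH B v N g h a (a / 16) ε →
        StH B v N ϖ (fun i => (1 - a / 16) • g i + (a / 16) • h i) η 2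

/-! ### the machine -/

/-- AST: the step of the case ALPHA. Proof: `ε₁ = a * η / 40`. `AlH` for
`B = Bs Ψ (fun i => V G (q i)) n u Q`, `v = V G (q u)`, `g i = V G (gq (q u) φ i)`,
`h i = V G (hq (q u) J φ i)` and `ε₁`: every `b ∈ B` is `V G (bo n u c q) - Ψ z`, `z ∈ span Q` (`BSR`);
`g1, h1`: `‖V G (mapDomain _ q)‖ ≤ ∑ |q r| = 1`; `low`: `AKB`; `up1`: `AUP`; `lo1`: `ALO`; `slo`: `ASL`;
`sup`: `ASU` (`V G` is linear). `ALS`, then `STR`. `Ret`: `STR` (second part) and `ARE`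
(`b + A • (∑ ϖ i • V G (lam … i) - τ • Ψ y') = V G (bo … + A • ∑ ϖ i • lam … i) - Ψ (z + (A * τ) • y')`);
`ε * (1 + 4 n / a) ≤ η`, `4 * ε ≤ η`. -/
def AstStmt : Prop := ∀ (X : Type) [NormedAddCommGroup X] [NormedSpace ℝ X] (f : ℝ → X)
  (F : ℕ → StrongDual ℝ X) (G : ℝ → Z) (Ψ : X →ₗᵢ[ℝ] Z) (a ε : ℝ) (n u : ℕ) (q : ℕ → ℝ →₀ ℝ)
  (W : Finset ℝ) (Q : Set X) (N : ℕ) (ϖ : ℕ → ℝ) (J φ : ℕ → ℝ → ℝ) (T : ℕ → Finset ℝ)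
  (y : ℝ → X) (η : ℝ), Sit f F G Ψ a ε n u q W (Submodule.span ℝ Q) N ϖ J φ T y → a ≤ 1 →
    0 < η → η ≤ 1 → 2 * ε * (1 + 4 * n / a) ≤ a * η / 40 →
      NE.Step (NE.Bs Ψ (fun i => V G (q i)) n u Q) (V G (q u)) N (fun j => ϖ (ci N j))
        (fun _ => 0) (fun j => V G (lam (q u) J φ (a / 16) (ci N j))) η 2 ∧
      NE.Ret Ψ (NE.Bs Ψ (fun i => V G (q i)) n u Q) (V G (q u)) N (fun j => ϖ (ci N j))
        (fun j => V G (lam (q u) J φ (a / 16) (ci N j))) η (a / 16)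
        (∑ r ∈ (q u).support, q u r • y r)

/-- ACF: the new configuration. Proof: `NE.Ln` takes at the index `u` the child `lam (N - 1)`, at the
index `n + k` (`k < N - 1`) the child `lam k`, and does not change the other leaves. `pb`:
`lam` is nonnegative with the sum `(1 - τ) + τ = 1` (`Finsupp.sum_mapDomain_index`, `mapDomain` of a
nonnegative function). `sub`, `nr`: `(lam … i).support ⊆ (R ∪ R.image (J i)).image (φ i)` (`Mv.suc`,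
`Mv.nR`, `RCN` third part). `dis`: this set is disjoint from `T i` (`Mv.new`) and contained in
`T (i + 1)`; the supports of the other leaves are in `W ⊆ T 0`. -/
def AcfStmt : Prop := ∀ (X : Type) [NormedAddCommGroup X] [NormedSpace ℝ X] (f : ℝ → X)
  (F : ℕ → StrongDual ℝ X) (G : ℝ → Z) (Ψ : X →ₗᵢ[ℝ] Z) (a ε : ℝ) (n u : ℕ) (q : ℕ → ℝ →₀ ℝ)
  (W : Finset ℝ) (E : Submodule ℝ X) (N : ℕ) (ϖ : ℕ → ℝ) (J φ : ℕ → ℝ → ℝ) (T : ℕ → Finset ℝ)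
  (y : ℝ → X), Sit f F G Ψ a ε n u q W E N ϖ J φ T y → ∀ τ : ℝ, 0 ≤ τ → τ ≤ 1 →
    Cfg G Ψ a (n + (N - 1)) (NE.Ln n u q fun j => lam (q u) J φ τ (ci N j)) (T N)

/-- AMA: the machine of the case ALPHA. Proof: `a ≤ rho Ψ (G x) ≤ ‖G x‖ ≤ 1` (`RCN`, first part, for
`single x 1`). `start`: `loc = fun _ => single x 1`, `W = {x}`; `V G (single x 1) = G x ≠ 0`. `bdd`:
`‖V G q‖ ≤ ∑ |q r| = 1`. `far`: `RCN`, first part. `step`: let `W` be the set of the configuration,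
`η' = min η 1`, `ε = a * η' / (160 * (1 + 4 * n / a))` (so `2 * ε * (1 + 4 * n / a) ≤ a * η' / 40`,
`ε ≤ a`, `ε ≤ 1`), `E = span Q` (finite dimensional): `MOV` for `q = loc u`, then `AST` for `η'`,
`ACF` for `τ = a / 16`; `Step` and `Ret` are monotone in `η`. -/
def AmaStmt : Prop := ∀ (X : Type) [NormedAddCommGroup X] [NormedSpace ℝ X] (f : ℝ → X)
  (F : ℕ → StrongDual ℝ X) (G : ℝ → Z) (Ψ : X →ₗᵢ[ℝ] Z), Crv f F G Ψ → TT G Ψ → ∀ a : ℝ, 0 < a →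
    ∀ x : ℝ, Gn G Ψ {x} → ¬ Rch G Ψ a {x} →
      a ≤ 1 ∧ NE.Mach Ψ (fun q : ℝ →₀ ℝ => V G q) (InvA G Ψ a) (a / 16) 2 1 a

end Pool.Agent.NL
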