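import Pool.Agent.NL.Defs2
import Pool.Agent.NL.StmtsM

/-!
# NL: statements of the case BETA and of the curve

See the docstrings for the complete proofs. `Defs.lean`, `Defs2.lean`, `NE/Defs.lean` contain the
definitions.
-/

set_option autoImplicit false

open MeasureTheory Filter Topology

noncomputable section

namespace Pool.Agent.NL

/-! ### general tools -/

/-- NRV: finitely many coordinates are almost norming for the combinations of the points of `T` modulo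
`E`. Proof: `NRM` for the finite dimensional space `span (G '' T) ⊔ E.map Ψ` (for `b.support ⊆ T`,
`V G b = ∑ x ∈ T, b x • G x` is in it). -/
def NrvStmt : Prop := ∀ (X : Type) [NormedAddCommGroup X] [NormedSpace ℝ X] (G : ℝ → Z)
  (Ψ : X →ₗᵢ[ℝ] Z) (T : Finset ℝ) (E : Submodule ℝ X) [FiniteDimensional ℝ E] (ε : ℝ), 0 < ε →
    ∃ Φ : Finset ℕ, ∀ b : ℝ →₀ ℝ, b.support ⊆ T → ∀ y ∈ E, ∃ k ∈ Φ,
      ‖V G b - Ψ y‖ ≤ (1 + ε) * |(V G b - Ψ y) k|

/-- BSR: the elements of the base space. Proof: `Submodule.span_union`, `Submodule.mem_sup`; the first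
part: `Submodule.mem_span_image_iff...` or `Submodule.span_induction` (the set of the vectors
`V G (bo n u c q)` is a submodule which contains the generators: `c` = the indicator of `i`;
`bo` is linear in `c`); the second part: `Ψ '' Q`, `Submodule.span_image` / `Submodule.map_span`;
replace `y` by `-y`. -/
def BsrStmt : Prop := ∀ (X : Type) [NormedAddCommGroup X] [NormedSpace ℝ X] (G : ℝ → Z)
  (Ψ : X →ₗᵢ[ℝ] Z) (n u : ℕ) (q : ℕ → ℝ →₀ ℝ) (Q : Set X),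
    ∀ b ∈ NE.Bs Ψ (fun i => V G (q i)) n u Q, ∃ c : ℕ → ℝ, ∃ y ∈ Submodule.span ℝ Q,
      b = V G (bo n u c q) - Ψ y

/-- ANK: the classes of a chain. Proof: `anc s k i` is the `i`-th iterate of the map
`f j = if j < k then j else s j` at `i`; for `j < N` not yet below `k` the map decreases (`1 ≤ k`), so
after `i` steps the value is below `k` (by induction on `j`: for `j < N`, `j ≤ r`: `f^[r] j < k`,
and once below `k` it is fixed; hence `f^[r] j` does not depend on `r ≥ j`). (See also `NE.AncStmt`.)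
The last clause: strong induction on `i`: if `i < k` both sides are `i`; if `i = k` the left side is
`s k` and `anc s (k + 1) k = k`; if `i > k` then `anc s k i = anc s k (s i)` and
`anc s (k + 1) i = anc s (k + 1) (s i)`. -/
def AnkStmt : Prop := ∀ (s : ℕ → ℕ) (N : ℕ), (∀ i, 1 ≤ i → i < N → s i < i) →
  ∀ k, 1 ≤ k → ∀ i, i < N →
    NE.anc s k i < k ∧ (i < k → NE.anc s k i = i) ∧
      NE.anc s k i = if NE.anc s (k + 1) i = k then s k else NE.anc s (k + 1) i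

/-! ### the case BETA -/

/-- LBD: lower bounds for the coefficients. Proof: `REM` with `p z = (z = x)`:
`b.filter p = single x (b x)`, `V G (single x c) = c • G x`, `rho Ψ (c • z) = |c| * rho Ψ z`
(homogeneity of the distance from a subspace; for `c ≠ 0`, and `rho Ψ 0 = 0`). Second part: sum over
`x ∈ W`: `δ * l1 b ≤ #W * rho`, and `‖y‖ = ‖Ψ y‖ ≤ ‖V G b - Ψ y‖ + ‖V G b‖`, `‖V G b‖ ≤ l1 b`
(`Crv.bdd`), `rho Ψ z ≤ ‖z - Ψ y‖` (`Metric.infDist_le_dist_of_mem`). -/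
def LbdStmt : Prop := ∀ (X : Type) [NormedAddCommGroup X] [NormedSpace ℝ X] (f : ℝ → X)
  (F : ℕ → StrongDual ℝ X) (G : ℝ → Z) (Ψ : X →ₗᵢ[ℝ] Z), Crv f F G Ψ → ∀ δ : ℝ, 0 < δ →
    ∀ W : Finset ℝ, Good G Ψ W → (∀ x ∈ W, δ ≤ rho Ψ (G x)) → ∀ b : ℝ →₀ ℝ, b.support ⊆ W →
      (∀ x ∈ W, δ * |b x| ≤ rho Ψ (V G b)) ∧
      ∀ y : X, l1 b + ‖y‖ ≤ (1 + 2 * W.card / δ) * ‖V G b - Ψ y‖

/-- GSB: good neighbours. Proof: `NRV` for `T = W` with `ε / 3`: `Φ`. Let `η > 0` be small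
(`η * (1 + 2 * #W / δ) ≤ ε`, `(1 + ε / 3) * (1 + η / δ) ≤ 1 + ε`). Take `x` with the properties of
`STQ` for `Φ`, `E`, `η`, and `x ∈ A` (`APt.den`). `lo`: with the coordinate `k ∈ Φ` for `V G b + β G s - Ψ y`
`= V G (b + single s β) - Ψ y`: `‖V G b + β • G s - Ψ y‖ ≤ (1 + ε / 3) * (‖V G b + β • G x - Ψ y‖
+ |β| * η)` (`|z k| ≤ ‖z‖` in `ℓ_∞`), and `δ * |β| ≤ ‖V G b + β • G x - Ψ y‖` by `LBD` for
`insert x W` and the vector `b + single x β` (`b x = 0`). `up`: for `t = 1` `STQ` and `LBD` (second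
part) for `W`; for `0 ≤ t ≤ 1` the left side is the norm of the convex combination of
`V G b - Ψ y` and `V G b + b s • (G x - G s) - Ψ y`. (`Good` from `Gn`: `GND`.) -/
def GsbStmt : Prop := ∀ (X : Type) [NormedAddCommGroup X] [NormedSpace ℝ X] (f : ℝ → X)
  (F : ℕ → StrongDual ℝ X) (G : ℝ → Z) (Ψ : X →ₗᵢ[ℝ] Z), Crv f F G Ψ → ∀ (δ : ℝ) (A : Set ℝ),
    APt G Ψ δ A → ∀ W : Finset ℝ, Gn G Ψ W → (∀ w ∈ W, w ∈ A) → ∀ s ∈ W,
      ∀ (E : Submodule ℝ X) [FiniteDimensional ℝ E] (ε : ℝ), 0 < ε →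
      ∀ᶠ x in dens s, x ∈ A ∧ x ∉ W ∧ Gn G Ψ (insert x W) ∧ NrB G Ψ W s E ε x

/-- BLK: the hierarchical block. Proof: let `ε m = η / 2 ^ (m + 1)`; then
`∏ m ∈ Ico 1 N, (1 + ε m) ≤ exp (∑ ε m) ≤ exp (η / 2) ≤ 1 + η` (`Real.add_one_le_exp`; for
`η ≤ 1`: `Real.exp_bound_div_one_sub_of_interval` or `Real.exp_le...`, e.g. `exp (η / 2) ≤
1 / (1 - η / 2) ≤ 1 + η`). Claim, by induction on `Rch G Ψ e W'`: for every chain
`Chn … N x s` with `1 ≤ N` and `(range N).image x = W'` there is a longer chain `Chn … N' x' s'`,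
`N ≤ N'`, `x' 0 = x 0`, and `p' : ℝ →₀ ℝ` with `Pb p'`, `p'.support ⊆ (range N').image x'`,
`rho Ψ (V G p') < e`. `stop`: nothing to do. `split`: `s₀ = x j`, `j < N`; by `GSB` for
`W ∪ W'` (`Chn.gn`, all the points are in `A`), `s₀`, `ε N` and `∃ᶠ x, x ∈ S` there is `x₁ ∈ S` which
is a good neighbour; put `x N = x₁`, `s N = j` (`Function.update`), and use the induction
hypothesis for `insert x₁ W'`. Start: `N = 1`, `x = fun _ => x₀`, `APt.rch`. Result: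
`N ≥ 2`, since for `N = 1` `p' = single x₀ 1`, `rho Ψ (G x₀) < e ≤ δ` contradicts `APt.far`. Perturb:
`p j = (1 - θ) * p' (x j) + θ / N` with `θ > 0` small is positive, has the sum `1`
(`x` injective), and `∑ p j • G (x j)` is at the distance `≤ 2 θ` from `V G p'`, so its distance from
`X` is `< e` (`Metric.infDist` is 1-Lipschitz, or choose `y` first); choose `y`
(`Metric.infDist_lt_iff`). -/
def BlkStmt : Prop := ∀ (X : Type) [NormedAddCommGroup X] [NormedSpace ℝ X] (f : ℝ → X)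
  (F : ℕ → StrongDual ℝ X) (G : ℝ → Z) (Ψ : X →ₗᵢ[ℝ] Z), Crv f F G Ψ → ∀ (δ : ℝ) (A : Set ℝ),
    APt G Ψ δ A → ∀ (W : Finset ℝ) (x₀ : ℝ), x₀ ∈ A → x₀ ∉ W → (∀ w ∈ W, w ∈ A) →
      Gn G Ψ (insert x₀ W) → ∀ (E : Submodule ℝ X) [FiniteDimensional ℝ E] (η e : ℝ),
      0 < η → η ≤ 1 → 0 < e → e ≤ δ →
      ∃ (ε : ℕ → ℝ) (N : ℕ) (x : ℕ → ℝ) (s : ℕ → ℕ) (p : ℕ → ℝ) (y : X), (∀ m, 0 ≤ ε m) ∧
        ∏ m ∈ Finset.Ico 1 N, (1 + ε m) ≤ 1 + η ∧ Chn G Ψ A W E ε N x s ∧ x 0 = x₀ ∧ 2 ≤ N ∧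
        (∀ j, j < N → 0 < p j) ∧ ∑ j ∈ Finset.range N, p j = 1 ∧
        ‖∑ j ∈ Finset.range N, p j • G (x j) - Ψ y‖ < e

/-- CHS: a chain of good neighbours is a step (linear algebra). Proof: for `1 ≤ k ≤ N` and
`a : ℕ → ℝ` let `D k a j = ∑ i ∈ range N with anc s k i = j, a i` (`j < k`). By `ANK`
`D (k + 1) a j = D k a j` for `j < k`, `j ≠ s k`, and `D k a (s k) = D (k + 1) a (s k) + D (k + 1) a k`.
(1) For `1 ≤ k < N`: `‖b + ∑ j ∈ range k, D k a j • g j‖ ≤ (1 + ε k) *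
‖b + ∑ j ∈ range (k + 1), D (k + 1) a j • g j‖`: this is `hlo` for `a j = D (k + 1) a j`,
`β = D (k + 1) a k`. Since `D N a = a` (`anc s N i = i`), by induction
`‖b + ∑ j ∈ range m, D m a j • g j‖ ≤ ∏ k ∈ Ico m N, (1 + ε k) * ‖b + ∑ j ∈ range N, a j • g j‖`.
For `m = 1` this is `Step.lo` (all classes are `0`).
(2) Fix `m` and `a`, and put for `m ≤ k ≤ N`, `j < k`:
`P k j = (D k p j / D m p (anc s m j)) * D m a (anc s m j)` (`D k p j > 0`). `P m j = D m a j`,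
`P N j = Qs N p s m a j`. For `m ≤ k < N`: `P (k + 1) j = P k j` for `j < k`, `j ≠ s k`,
`P (k + 1) (s k) + P (k + 1) k = P k (s k)`, `P (k + 1) k = t * P k (s k)` with
`t = D (k + 1) p k / D k p (s k) ∈ [0, 1]` (`anc s m k = anc s m (s k)`). So `hup` gives
`‖b + ∑ j ∈ range (k + 1), P (k + 1) j • g j‖ ≤ (1 + ε k) * ‖b + ∑ j ∈ range k, P k j • g j‖`, and
by induction `‖b + ∑ j ∈ range N, Qs N p s m a j • g j‖ ≤ ∏ k ∈ Ico m N, (1 + ε k) *
‖b + ∑ j ∈ range m, D m a j • g j‖`. With (1) this is `Step.inn` with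
`(∏ k ∈ Ico m N, (1 + ε k)) ^ 2 ≤ (1 + η) ^ 2 ≤ 2`. The case `m = 1`, `a 0 = A`, `a j = 0` for `j ≥ 1`
of the estimate (`D 1 p 0 = 1`, `P N j = p j * A`) is `Step.up`. -/
def ChsStmt : Prop := ∀ (Y : Type) [NormedAddCommGroup Y] [NormedSpace ℝ Y] (B : Submodule ℝ Y)
  (N : ℕ) (g : ℕ → Y) (p : ℕ → ℝ) (s : ℕ → ℕ) (ε : ℕ → ℝ) (η : ℝ), 2 ≤ N →
    (∀ j, j < N → 0 < p j) → ∑ j ∈ Finset.range N, p j = 1 → (∀ m, 1 ≤ m → m < N → s m < m) →
    (∀ m, 0 ≤ ε m) → ∏ m ∈ Finset.Ico 1 N, (1 + ε m) ≤ 1 + η → η ≤ 1 / 4 →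
    (∀ m, 1 ≤ m → m < N → ∀ b ∈ B, ∀ (a : ℕ → ℝ) (β : ℝ),
      ‖b + ∑ j ∈ Finset.range m, a j • g j + β • g (s m)‖ ≤
        (1 + ε m) * ‖b + ∑ j ∈ Finset.range m, a j • g j + β • g m‖) →
    (∀ m, 1 ≤ m → m < N → ∀ b ∈ B, ∀ (a : ℕ → ℝ) (t : ℝ), 0 ≤ t → t ≤ 1 →
      ‖b + ∑ j ∈ Finset.range m, a j • g j + (t * a (s m)) • (g m - g (s m))‖ ≤
        (1 + ε m) * ‖b + ∑ j ∈ Finset.range m, a j • g j‖) →
    (∀ a : ℕ → ℝ, ∑ j ∈ Finset.range N, a j • g j = 0 → ∀ j, j < N → a j = 0) →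
    NE.Step B (g 0) N p s g η 2

/-- BMA: the machine of the case BETA. Proof: `start`: `loc = fun _ => x`, `x ∈ A`
(`G x ≠ 0` since `rho Ψ (G x) ≥ δ > 0 = rho Ψ 0`). `bdd`: `Crv.bdd`. `far`: `APt.far`,
`Metric.infDist_le_dist_of_mem`. `step`: `W = ((range n).erase u).image loc`, `x₀ = loc u`,
`E = span Q` (finite dimensional), `η' = min η (1 / 4)`, `e = min η δ`: `BLK`. The data of the step:
`N, p, s, l = x, y`. By `BSR` with `q i = single (loc i) 1` (`V G (single x 1) = G x`) every `b ∈ Bs`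
is `V G b' - Ψ z` with `b'.support ⊆ W`, `z ∈ E`. `CHS` with `g j = G (x j)`: the hypotheses are
`Chn.nr` (`.lo` with the coefficient vector `b' + ∑ j ∈ range m, a j • single (x j) 1`; `.up` with the
same vector, whose value at `x (s m)` is `a (s m)`, since `x` is injective and `x (s m) ∉ W`); the
last one: `LBD` (first part) for `(range N).image x` and `V G (∑ a j • single (x j) 1) = 0`.
`Step` for `η'` gives `Step` for `η` (`up`, `lo` are monotone in `η`; `x 0 = loc u`). `Ret` with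
`τ = 1`: `‖b + A • (∑ - Ψ y)‖ ≤ ‖b‖ + |A| * e`. The new invariant: the points `loc i` (`i ≠ u`) and
`x j` are different and in `A`, `Gn` is `Chn.gn` (`(range (n + (N - 1))).image (Ln n u loc x) =
W ∪ (range N).image x`). -/
def BmaStmt : Prop := ∀ (X : Type) [NormedAddCommGroup X] [NormedSpace ℝ X] (f : ℝ → X)
  (F : ℕ → StrongDual ℝ X) (G : ℝ → Z) (Ψ : X →ₗᵢ[ℝ] Z), Crv f F G Ψ → ∀ (δ : ℝ) (A : Set ℝ),
    APt G Ψ δ A → A.Nonempty → NE.Mach Ψ G (InvB G Ψ A) 1 2 1 δ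

/-! ### the curve -/

/-- CUI: the intervals. Proof: `α` by strong recursion (`σ n < n`). The clauses for `n = 1` are clear
(`w 1 0 = 1`), and by induction from `n` to `n + 1` (`s = σ n`): the interval `s` is divided into
`[α s, α s + w (n + 1) s]` and `[α n, α n + w (n + 1) n]`, `α n = α s + w (n + 1) s`,
`w n s = w (n + 1) s + w (n + 1) n`; the other intervals do not change. The sum:
`cw w α n s x = cw w α (n + 1) s x + cw w α (n + 1) n x`. -/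
def CuiStmt : Prop := ∀ (X : Type) [NormedAddCommGroup X] [NormedSpace ℝ X]
  (σ : ℕ → ℕ) (w : ℕ → ℕ → ℝ) (Y : ℕ → ℕ → X) (M : ℝ), NE.Bin σ w Y M →
    ∃ α : ℕ → ℝ, AlP σ w α ∧ ∀ n, 1 ≤ n →
      (∀ i, i < n → 0 ≤ α i ∧ α i + w n i ≤ 1) ∧
      (∀ i, i < n → ∀ j, j < n → i ≠ j → α i + w n i ≤ α j ∨ α j + w n j ≤ α i) ∧
      (∀ x, ∑ i ∈ Finset.range n, cw w α n i x = max 0 (min x 1)) ∧
      ∀ x, cw w α n (σ n) x = cw w α (n + 1) (σ n) x + cw w α (n + 1) n x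

/-- CUG: the curves of the time `n`. Proof: (1) all `x ↦ cw w α n i x` are monotone, so for `x' ≤ x`
`‖gg n x - gg n x'‖ ≤ M * ∑ (cw n i x - cw n i x') = M * (max 0 (min x 1) - max 0 (min x' 1))`.
(2) If `x ≤ α s` or `α s + w n s ≤ x` (`s = σ n`), then `gg (n + 1) x = gg n x`: in the first case
`cw n s x`, `cw (n + 1) s x`, `cw (n + 1) n x` are `0`, in the second they are `w n s`, `w (n + 1) s`,
`w (n + 1) n`, and `Bin.y2`. The hypothesis in (2) is inherited by the time `n + 1` (the new intervals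
are contained in the old ones), so induction on `v`. (3) `cw n j (α i) - cw n j (α i + w n i) = 0`
for `j ≠ i` (disjoint intervals), and `= - w n i` for `j = i`. -/
def CugStmt : Prop := ∀ (X : Type) [NormedAddCommGroup X] [NormedSpace ℝ X]
  (σ : ℕ → ℕ) (w : ℕ → ℕ → ℝ) (Y : ℕ → ℕ → X) (M : ℝ) (α : ℕ → ℝ), NE.Bin σ w Y M → AlP σ w α →
    (∀ n, 1 ≤ n →
      (∀ i, i < n → ∀ j, j < n → i ≠ j → α i + w n i ≤ α j ∨ α j + w n j ≤ α i) ∧
      (∀ x, ∑ i ∈ Finset.range n, cw w α n i x = max 0 (min x 1))) →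
    ∀ n, 1 ≤ n →
      (∀ x x' : ℝ, ‖gg w α Y n x - gg w α Y n x'‖ ≤ M * |x - x'|) ∧
      (∀ x : ℝ, (∀ i, i < n → x ≤ α i ∨ α i + w n i ≤ x) →
        ∀ v, n ≤ v → gg w α Y v x = gg w α Y n x) ∧
      ∀ i, i < n → gg w α Y n (α i + w n i) - gg w α Y n (α i) = w n i • Y n i

/-- CUX: the path of a point. Proof: `i 0 = 0`, `i 1 = 0`, and for `n ≥ 1`
`i (n + 1) = if i n = σ n ∧ α n ≤ x then n else i n` (`Nat.rec`). -/
def CuxStmt : Prop := ∀ (X : Type) [NormedAddCommGroup X] [NormedSpace ℝ X]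
  (σ : ℕ → ℕ) (w : ℕ → ℕ → ℝ) (Y : ℕ → ℕ → X) (M : ℝ) (α : ℕ → ℝ), NE.Bin σ w Y M → AlP σ w α →
    ∀ x : ℝ, 0 ≤ x → x < 1 → ∃ i : ℕ → ℕ, NE.Path σ i ∧
      ∀ n, 1 ≤ n → α (i n) ≤ x ∧ x < α (i n) + w n (i n)

/-- CUP: the lengths of the intervals of a divergent path tend to `0`. Proof: let `t n = w n (i n)`
(`n ≥ 1`); `0 < t (n + 1) ≤ t n` (`Bin.w1`, `w2`, `pos`), so `t n` tends to some `t ≥ 0`
(`tendsto_atTop_ciInf` or `Real.tendsto_of_bddBelow_antitone`). Suppose `t > 0`. For `n ≥ 1`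
`‖Y (n + 1) (i (n + 1)) - Y n (i n)‖ ≤ 2 * M * (t n - t (n + 1)) / t`: if `i n ≠ σ n` both sides of the
difference are equal; if `i n = σ n` then with the other child `j` by `Bin.y2`
`t n • (Y (n + 1) (i (n + 1)) - Y n (i n)) = (t n - t (n + 1)) • (Y (n + 1) (i (n + 1)) -
Y (n + 1) j)` and `w (n + 1) j = t n - t (n + 1)`. The right sides are summable (telescoping), so
the sequence is a Cauchy sequence (`cauchySeq_of_summable_dist` / `cauchySeq_of_le_...`, or directly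
`‖Y m (i m) - Y n (i n)‖ ≤ 2 * M * (t n - t m) / t`). -/
def CupStmt : Prop := ∀ (X : Type) [NormedAddCommGroup X] [NormedSpace ℝ X]
  (σ : ℕ → ℕ) (w : ℕ → ℕ → ℝ) (Y : ℕ → ℕ → X) (M : ℝ), NE.Bin σ w Y M →
    ∀ i : ℕ → ℕ, NE.Path σ i → (¬ CauchySeq fun n => Y n (i n)) →
      Tendsto (fun n => w n (i n)) atTop (𝓝 0)

/-- CUS: the straddle lemma. Proof: `HasDerivAt` at `x` with the value `d`: for `ε > 0` and `y` close to
`x`: `‖f y - f x - (y - x) • d‖ ≤ ε |y - x|`; for `y = β n` and `y = α n` (both tend to `x`), subtract: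
`‖f (β n) - f (α n) - (β n - α n) • d‖ ≤ ε ((β n - x) + (x - α n))`. -/
def CusStmt : Prop := ∀ (X : Type) [NormedAddCommGroup X] [NormedSpace ℝ X] (f : ℝ → X) (x : ℝ)
  (α t : ℕ → ℝ) (Y : ℕ → X), DifferentiableAt ℝ f x →
    (∀ n, 1 ≤ n → 0 < t n ∧ α n ≤ x ∧ x ≤ α n + t n) → Tendsto t atTop (𝓝 0) →
    (∀ n, 1 ≤ n → f (α n + t n) - f (α n) = t n • Y n) → CauchySeq Y

/-- CUR: the curve (this is the row `CRV` of the engine). Proof: `α` from `CUI`. For `x < 0` `gg n x = 0`;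
for `x ≥ 1` `gg n x = gg 1 x` (`n ≥ 1`, `CUG` (2)); for `0 ≤ x < 1` take the path `i` of `CUX`; by
`CUP` `w n (i n)` tends to `0`; for `1 ≤ n ≤ v` by `CUG` (2) for the point `α (i n)` (disjointness:
`α (i n)` is not in the interior of any interval of the time `n`; `w` positive)
`gg v (α (i n)) = gg n (α (i n))`, so by `CUG` (1)
`‖gg v x - gg n x‖ ≤ 2 * M * (x - α (i n)) ≤ 2 * M * w n (i n)`: `gg n x` is a Cauchy sequence.
Let `f x` be the limit: `f x ∈ W` (closed), `f` is `M`-Lipschitz (`M ≥ 0` since `‖Y 1 0‖ ≤ M`).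
For `0 ≤ x < 1` and `n ≥ 1`: `f (α (i n)) = gg n (α (i n))`, `f (α (i n) + w n (i n)) =
gg n (…)` (`CUG` (2), the limit of an eventually constant sequence), so by `CUG` (3)
`f (α (i n) + w n (i n)) - f (α (i n)) = w n (i n) • Y n (i n)`. If `f` were differentiable at `x`,
`CUS` would give that `Y n (i n)` is a Cauchy sequence. So `f` is not differentiable at any point of
`[0, 1)`, a set of positive measure. -/
def CurStmt : Prop := ∀ (X : Type) [NormedAddCommGroup X] [NormedSpace ℝ X] [CompleteSpace X]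
  (W : Submodule ℝ X) (σ : ℕ → ℕ) (w : ℕ → ℕ → ℝ) (Y : ℕ → ℕ → X) (M : ℝ),
  IsClosed (W : Set X) → NE.Bin σ w Y M → (∀ n i, i < n → Y n i ∈ W) →
  (∀ i : ℕ → ℕ, NE.Path σ i → ¬ CauchySeq fun n => Y n (i n)) →
  ∃ f : ℝ → X, (∀ t, f t ∈ W) ∧ (∃ K : NNReal, LipschitzWith K f) ∧
    ¬ (∀ᵐ t ∂MeasureTheory.volume, DifferentiableAt ℝ f t)

end Pool.Agent.NL
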